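import Pool.Agent.TH690.SF.Milnor
import Pool.Agent.Y797.HC.Unr
set_option autoImplicit false

/-!
Symbols of blocks `t_0, ..., t_k` with `t_0 + ... + t_k + 1/(t_0 ^ w_0 ... t_k ^ w_k) = φ`, at a
discrete valuation.
-/

namespace Pool.Agent.K7.H1.CF

open scoped WithZero

open Pool.Agent.TH826.MK (KQ symb Unramified unitPart symb_update_mul symb_update_zpow
  symb_eq_zero' mem_unitPart_of_oneUnit')

open Pool.Agent.TH826.SX

open Pool.Agent.TH826.EF (onePart onePart_le mem_onePart_of_sum_lt)

open Pool.Agent.TH690.SF (mem_onePart_of_comp block_mem_onePart ext ext_symb ext_mem_onePart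
  symb_update_prod_self)

open Pool.Agent.Y797.HC (OU symb_zero_of_sum mem_of_rep mem_of_rep_all val_eval_le ou_eval)

section sum

variable {L : Type*} [Field L] {N : ℕ}

/-- A symbol is a combination of symbols which contain the sum of some of its entries in place of
one of them. -/
theorem symb_mem_span_sum (mm : ℕ) : ∀ (T : Finset (Fin N)) (a : Fin N → Lˣ) (S : Lˣ),
    T.card = mm + 1 → ∑ k ∈ T, (a k : L) = S →
    symb a ∈ Submodule.span ℚ {x | ∃ b : Fin N → Lˣ, (∃ k ∈ T, b k = S) ∧
      (∀ l, l ∉ T → b l = a l) ∧ x = symb b} := by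
  classical
  induction mm with
  | zero =>
    intro T a S hT h
    obtain ⟨t, rfl⟩ := Finset.card_eq_one.1 hT
    rw [Finset.sum_singleton] at h
    exact Submodule.subset_span ⟨a, ⟨t, Finset.mem_singleton_self t, Units.ext h⟩,
      fun _ _ => rfl, rfl⟩
  | succ m ih =>
    intro T a S hT h
    obtain ⟨i, hi, j, hj, hij⟩ := Finset.one_lt_card.1 (show 1 < T.card by omega)
    by_cases hs : (a i : L) + a j = 0
    · have h0 : symb a = 0 := by
        refine symb_self_neg a hij (Units.ext ?_)
        rw [Units.val_neg]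
        exact eq_neg_of_add_eq_zero_right hs
      rw [h0]
      exact Submodule.zero_mem _
    · set s : Lˣ := Units.mk0 _ hs with hsdef
      have hsv : (s : L) = a i + a j := rfl
      have hsum : ∑ k ∈ T, (a k : L) = a i + (a j + ∑ k ∈ (T.erase i).erase j, (a k : L)) := by
        rw [← Finset.add_sum_erase _ _ hi,
          ← Finset.add_sum_erase (T.erase i) _ (Finset.mem_erase.2 ⟨hij.symm, hj⟩)]
      have hU : ∀ k ∈ (T.erase i).erase j, k ≠ i ∧ k ≠ j := fun k hk =>
        ⟨Finset.ne_of_mem_erase (Finset.mem_of_mem_erase hk), Finset.ne_of_mem_erase hk⟩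
      have mono : ∀ (p q : Fin N), p ∈ T → q ∈ T →
          Submodule.span ℚ {x | ∃ b : Fin N → Lˣ, (∃ k ∈ T.erase p, b k = S) ∧
            (∀ l, l ∉ T.erase p → b l = Function.update a q s l) ∧ x = symb b} ≤
          Submodule.span ℚ {x | ∃ b : Fin N → Lˣ, (∃ k ∈ T, b k = S) ∧
            (∀ l, l ∉ T → b l = a l) ∧ x = symb b} := by
        intro p q _ hq
        refine Submodule.span_mono ?_
        rintro x ⟨b, ⟨k, hk, hbk⟩, hb, rfl⟩
        refine ⟨b, ⟨k, Finset.mem_of_mem_erase hk, hbk⟩, fun l hl => ?_, rfl⟩
        rw [hb l fun h' => hl (Finset.mem_of_mem_erase h'),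
          Function.update_of_ne (by rintro rfl; exact hl hq)]
      have c1 : symb (Function.update a i s) ∈ _ := mono j i hj hi (by
        refine ih (T.erase j) _ S (by rw [Finset.card_erase_of_mem hj, hT]; rfl) ?_
        rw [← Finset.add_sum_erase (T.erase j) _ (Finset.mem_erase.2 ⟨hij, hi⟩),
          Function.update_self, hsv, Finset.erase_right_comm]
        rw [Finset.sum_congr rfl fun k hk => by rw [Function.update_of_ne (hU k hk).1]]
        rw [← h, hsum]
        ring)
      have c2 : symb (Function.update a j s) ∈ _ := mono i j hi hj (by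
        refine ih (T.erase i) _ S (by rw [Finset.card_erase_of_mem hi, hT]; rfl) ?_
        rw [← Finset.add_sum_erase (T.erase i) _ (Finset.mem_erase.2 ⟨hij.symm, hj⟩),
          Function.update_self, hsv]
        rw [Finset.sum_congr rfl fun k hk => by rw [Function.update_of_ne (hU k hk).2]]
        rw [← h, hsum]
        ring)
      have c3 : symb (Function.update (Function.update a i s) j s) = 0 :=
        symb_self _ hij (by rw [Function.update_self, Function.update_of_ne hij,
          Function.update_self])
      have c4 : symb (Function.update (Function.update a i (a i * s⁻¹)) j (a j * s⁻¹)) = 0 := by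
        refine symb_eq_zero' _ hij ?_
        rw [Function.update_of_ne hij, Function.update_self, Function.update_self,
          Units.val_mul, Units.val_mul, Units.val_inv_eq_inv_val, ← add_mul, hsv]
        exact mul_inv_cancel₀ hs
      have d1 : Function.update (Function.update a i (a i * s⁻¹)) j (a j) =
          Function.update a i (a i * s⁻¹) := by
        rw [Function.update_eq_self_iff, Function.update_of_ne hij.symm]
      have d2 : symb (Function.update (Function.update a i (a i * s⁻¹)) j s) =
          symb (Function.update a j s) := by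
        rw [Function.update_comm hij, symb_update_mul, symb_upd_inv,
          Function.update_comm hij.symm, Function.update_comm hij.symm, c3, neg_zero, add_zero,
          Function.update_eq_self]
      rw [symb_update_mul, d1, symb_upd_inv, d2, symb_update_mul,
        symb_upd_inv, Function.update_eq_self] at c4
      have c5 : symb a = symb (Function.update a i s) + symb (Function.update a j s) := by
        have c6 := congrArg (fun x => x + (symb (Function.update a i s) +
          symb (Function.update a j s))) c4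
        simp only [zero_add] at c6
        rw [← c6]
        abel
      rw [c5]
      exact Submodule.add_mem _ c1 c2

end sum

section block

variable {L : Type*} [Field L] (v : Valuation L ℤᵐ⁰) {k : ℕ}

/-- the entries `1/(t_0 ^ w_0 ... t_k ^ w_k), t_0, ..., t_k` -/
def WW (t : Fin (k + 1) → Lˣ) (wt : Fin (k + 1) → ℕ) : Fin (k + 2) → Lˣ :=
  Fin.cons (∏ i, t i ^ wt i)⁻¹ t

/-- At a valuation with `v(φ) ≤ 1`, either the symbol `{t_0, ..., t_k}` is generated by symbols
with one-units, or the `t_i` are units. -/
theorem block_le (t : Fin (k + 1) → Lˣ) (wt : Fin (k + 1) → ℕ) (hwt : ∀ l, 1 ≤ wt l) (φ : L)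
    (hsum : ∑ l, (WW t wt l : L) = φ) (hφ : v φ ≤ 1) :
    symb t ∈ onePart v (k + 1) ∨ ∀ i, v (t i : L) = 1 := by
  by_cases hlt : ∃ l, v φ < v (WW t wt l : L)
  · obtain ⟨l, hl⟩ := hlt
    left
    refine block_mem_onePart v t wt l ?_
    have h1 : (Fin.cons (∏ i, t i ^ wt i)⁻¹ t : Fin (k + 2) → Lˣ) = WW t wt := rfl
    rw [h1, hsum]
    exact hl
  · right
    push Not at hlt
    have hw1 : ∀ l, v (WW t wt l : L) ≤ 1 := fun l => (hlt l).trans hφ
    have hti1 : ∀ i, v (t i : L) ≤ 1 := fun i => hw1 i.succ
    have hP1 : 1 ≤ ∏ i, v (t i : L) ^ wt i := by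
      have h1 := hw1 0
      rw [WW, Fin.cons_zero, Units.val_inv_eq_inv_val, Units.coe_prod, map_inv₀, map_prod] at h1
      simp only [Units.val_pow_eq_pow_val, map_pow] at h1
      have h0 : 0 < ∏ i, v (t i : L) ^ wt i := by
        rw [zero_lt_iff]
        exact Finset.prod_ne_zero_iff.2 fun i _ =>
          pow_ne_zero _ ((Valuation.ne_zero_iff v).2 (t i).ne_zero)
      rwa [inv_le_one₀ h0] at h1
    have hpow : ∀ l, v (t l : L) ^ wt l ≤ v (t l : L) := by
      intro l
      obtain ⟨k, hk⟩ := Nat.exists_eq_succ_of_ne_zero (Nat.one_le_iff_ne_zero.1 (hwt l))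
      rw [hk, pow_succ]
      calc _ ≤ 1 * v (t l : L) := mul_le_mul' (pow_le_one' (hti1 l) _) le_rfl
        _ = _ := one_mul _
    intro l
    refine le_antisymm (hti1 l) (hP1.trans ?_)
    rw [← Finset.mul_prod_erase _ _ (Finset.mem_univ l)]
    calc v (t l : L) ^ wt l * ∏ x ∈ Finset.univ.erase l, v (t x : L) ^ wt x
        ≤ v (t l : L) * 1 := mul_le_mul' (hpow l)
          (Finset.prod_le_one' fun j _ => pow_le_one' (hti1 j) _)
      _ = v (t l : L) := mul_one _

/-- the span of the symbols with one entry which is `φ` up to a one-unit -/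
noncomputable def RR (k : ℕ) (φ : L) : Submodule ℚ (KQ L (k + 1)) :=
  Submodule.span ℚ {x | ∃ b : Fin (k + 1) → Lˣ, (∃ j, OU v ((b j : L) * φ⁻¹)) ∧ x = symb b}

/-- At a valuation with `v(φ) > 1`, the symbol `{t_0, ..., t_k}` is generated by symbols with
one-units and by symbols with an entry `φ`. -/
theorem block_gt (t : Fin (k + 1) → Lˣ) (wt : Fin (k + 1) → ℕ) (hwt : ∀ l, 1 ≤ wt l) (φ : L)
    (hsum : ∑ l, (WW t wt l : L) = φ) (hφ : 1 < v φ) :
    symb t ∈ onePart v (k + 1) ⊔ RR v k φ := by
  classical
  by_cases hlt : ∃ l, v φ < v (WW t wt l : L)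
  · obtain ⟨l, hl⟩ := hlt
    refine Submodule.mem_sup_left (block_mem_onePart v t wt l ?_)
    have h1 : (Fin.cons (∏ i, t i ^ wt i)⁻¹ t : Fin (k + 2) → Lˣ) = WW t wt := rfl
    rw [h1, hsum]
    exact hl
  push Not at hlt
  refine Submodule.mem_sup_right ?_
  have hφ0 : φ ≠ 0 := by
    rintro rfl
    rw [map_zero] at hφ
    exact absurd hφ (not_lt.2 zero_le_one)
  -- some entry is of smaller order
  obtain ⟨l0, hl0⟩ : ∃ l0, v (WW t wt l0 : L) < v φ := by
    by_contra hcon
    push Not at hcon
    have h1 : ∀ i, 1 < v (t i : L) := fun i => hφ.trans_le (hcon i.succ)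
    have h2 : 1 < v (WW t wt 0 : L) := hφ.trans_le (hcon 0)
    rw [WW, Fin.cons_zero, Units.val_inv_eq_inv_val, Units.coe_prod, map_inv₀, map_prod] at h2
    simp only [Units.val_pow_eq_pow_val, map_pow] at h2
    have h0 : 0 < ∏ i, v (t i : L) ^ wt i := by
      rw [zero_lt_iff]
      exact Finset.prod_ne_zero_iff.2 fun i _ =>
        pow_ne_zero _ ((Valuation.ne_zero_iff v).2 (t i).ne_zero)
    rw [one_lt_inv₀ h0] at h2
    refine absurd h2 (not_lt.2 ?_)
    exact Finset.one_le_prod' fun i _ => one_le_pow_of_one_le' (h1 i).le _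
  -- the entries of maximal order
  set I : Finset (Fin (k + 2)) := Finset.univ.filter fun l => v (WW t wt l : L) = v φ with hI
  have hl0I : l0 ∉ I := fun h => hl0.ne (Finset.mem_filter.1 h).2
  set S : L := ∑ l ∈ I, (WW t wt l : L) with hS
  have hSφ : S - φ = -∑ l ∈ Finset.univ.filter (fun l => ¬ v (WW t wt l : L) = v φ),
      (WW t wt l : L) := by
    have h1 := Finset.sum_filter_add_sum_filter_not Finset.univ
      (fun l => v (WW t wt l : L) = v φ) fun l => (WW t wt l : L)
    rw [hsum] at h1
    rw [hS, hI]
    linear_combination h1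
  have hlt2 : v (S - φ) < v φ := by
    rw [hSφ, Valuation.map_neg]
    refine Valuation.map_sum_lt v ((Valuation.ne_zero_iff v).2 hφ0) fun l hl => ?_
    exact lt_of_le_of_ne (hlt l) (Finset.mem_filter.1 hl).2
  have hvS : v S = v φ := by
    have e : S = φ + (S - φ) := by ring
    rw [e]
    exact Valuation.map_add_eq_of_lt_left v hlt2
  have hS0 : S ≠ 0 := by
    intro h
    rw [h, map_zero] at hvS
    rw [← hvS] at hφ
    exact absurd hφ (not_lt.2 zero_le_one)
  have hOU : OU v (S * φ⁻¹) := by
    unfold OU
    have e : S * φ⁻¹ - 1 = (S - φ) * φ⁻¹ := by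
      rw [sub_mul, mul_inv_cancel₀ hφ0]
    rw [e, map_mul, map_inv₀]
    have hpos : 0 < v φ := (Valuation.pos_iff v).2 hφ0
    rw [mul_inv_lt_iff₀ hpos, one_mul]
    exact hlt2
  set Su : Lˣ := Units.mk0 S hS0 with hSu
  -- the general statement
  have gen : ∀ (t' : Fin (k + 1) → Lˣ) (T : Finset (Fin (k + 1))),
      ∑ j ∈ T, (t' j : L) = S → symb t' ∈ RR v k φ := by
    intro t' T hT
    have hne : T.Nonempty := by
      rw [Finset.nonempty_iff_ne_empty]
      rintro rfl
      rw [Finset.sum_empty] at hT
      exact hS0 hT.symm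
    have hc : T.card = (T.card - 1) + 1 := by
      have := Finset.card_pos.2 hne
      omega
    have h1 := symb_mem_span_sum (T.card - 1) T t' Su hc hT
    refine (Submodule.span_mono ?_) h1
    rintro x ⟨b, ⟨j, _, hbj⟩, _, rfl⟩
    refine ⟨b, ⟨j, ?_⟩, rfl⟩
    rw [hbj]
    exact hOU
  rcases Fin.eq_zero_or_eq_succ l0 with rfl | ⟨j0, rfl⟩
  · refine gen t (Finset.univ.filter fun j => j.succ ∈ I) ?_
    rw [hS]
    have e : I = (Finset.univ.filter fun j : Fin (k + 1) => j.succ ∈ I).map
        (Fin.succEmb (k + 1)) := by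
      ext l
      rcases Fin.eq_zero_or_eq_succ l with rfl | ⟨j, rfl⟩
      · constructor
        · intro h
          exact absurd h hl0I
        · intro h
          obtain ⟨j, _, hj⟩ := Finset.mem_map.1 h
          exact absurd hj (Fin.succ_ne_zero j)
      · constructor
        · intro h
          exact Finset.mem_map.2 ⟨j, Finset.mem_filter.2 ⟨Finset.mem_univ _, h⟩, rfl⟩
        · intro h
          obtain ⟨j', hj', hj⟩ := Finset.mem_map.1 h
          have : j' = j := Fin.succ_injective _ hj
          rw [this] at hj'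
          exact (Finset.mem_filter.1 hj').2
    conv_rhs => rw [e]
    rw [Finset.sum_map]
    rfl
  · -- replace `t j0` by the inverse product
    set t' : Fin (k + 1) → Lˣ := Function.update t j0 (∏ i, t i ^ wt i)⁻¹ with ht'
    have h1 : symb t' ∈ RR v k φ := by
      refine gen t' (Finset.univ.filter fun j =>
        (if j = j0 then (0 : Fin (k + 2)) else j.succ) ∈ I) ?_
      have inj : Function.Injective fun j : Fin (k + 1) =>
          (if j = j0 then (0 : Fin (k + 2)) else j.succ) := by
        intro a b hab
        by_cases ha : a = j0 <;> by_cases hb : b = j0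
        · rw [ha, hb]
        · simp only [ha, hb, if_true, if_false] at hab
          exact absurd hab.symm (Fin.succ_ne_zero b)
        · simp only [ha, hb, if_true, if_false] at hab
          exact absurd hab (Fin.succ_ne_zero a)
        · simp only [ha, hb, if_false] at hab
          exact Fin.succ_injective _ hab
      have e : I = (Finset.univ.filter fun j : Fin (k + 1) =>
          (if j = j0 then (0 : Fin (k + 2)) else j.succ) ∈ I).map ⟨_, inj⟩ := by
        ext l
        constructor
        · intro h
          rcases Fin.eq_zero_or_eq_succ l with rfl | ⟨j, rfl⟩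
          · refine Finset.mem_map.2 ⟨j0, Finset.mem_filter.2 ⟨Finset.mem_univ _, ?_⟩, ?_⟩
            · rw [if_pos rfl]; exact h
            · show (if j0 = j0 then (0 : Fin (k + 2)) else j0.succ) = 0
              rw [if_pos rfl]
          · have hj : j ≠ j0 := by
              rintro rfl
              exact hl0I h
            refine Finset.mem_map.2 ⟨j, Finset.mem_filter.2 ⟨Finset.mem_univ _, ?_⟩, ?_⟩
            · rw [if_neg hj]; exact h
            · show (if j = j0 then (0 : Fin (k + 2)) else j.succ) = j.succ
              rw [if_neg hj]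
        · intro h
          obtain ⟨j, hj, rfl⟩ := Finset.mem_map.1 h
          exact (Finset.mem_filter.1 hj).2
      rw [hS]
      conv_rhs => rw [e]
      rw [Finset.sum_map]
      refine Finset.sum_congr rfl fun j _ => ?_
      show ((t' j : Lˣ) : L) = (WW t wt (if j = j0 then (0 : Fin (k + 2)) else j.succ) : L)
      by_cases hj : j = j0
      · rw [if_pos hj, ht', hj, Function.update_self]
        rfl
      · rw [if_neg hj, ht', Function.update_of_ne hj]
        rfl
    have h2 : symb t' = -((wt j0 : ℚ) • symb t) := by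
      rw [ht', symb_upd_inv, symb_update_prod_self]
    rw [h2] at h1
    have h3 : symb t = (-(wt j0 : ℚ)⁻¹) • (-((wt j0 : ℚ) • symb t)) := by
      have h0 : (wt j0 : ℚ) ≠ 0 := by
        have := hwt j0
        exact Nat.cast_ne_zero.2 (by omega)
      rw [smul_neg, neg_smul, neg_neg, smul_smul, inv_mul_cancel₀ h0, one_smul]
    rw [h3]
    exact Submodule.smul_mem _ _ h1

end block

end Pool.Agent.K7.H1.CF
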