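import Pool.Agent.TH826.MK.Torus
set_option autoImplicit false

/-!
Fibre products of families of Calabi-Yau varieties over the affine space, pulled back from lines by
linear forms.
-/

namespace Pool.Agent.K7.H1.CF

open MvPolynomial

open Pool.Agent.TH826.MK (KQ symb Torus Unramified)

/-- `m` linear forms `l_1, ..., l_m` on the affine space of dimension `n` over `K`, `m`
polynomials `F_1, ..., F_m` in one variable, and exponents `w_{e,j} + 1 ≥ 1`, `1 ≤ e ≤ m`,
`1 ≤ j ≤ k`. -/
structure Arr (K : Type*) [Field K] (n m k : ℕ) where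
  /-- the coefficients of the linear forms -/
  l : Fin m → Fin n → K
  /-- the polynomials -/
  F : Fin m → Polynomial K
  /-- the exponents minus one -/
  w : Fin m → Fin k → ℕ

variable {K : Type*} [Field K] {n m k : ℕ} (A : Arr K n m k)

/-- The polynomials `F_e` are monic, of positive degree, with integral coefficients. -/
def Arr.Integral : Prop :=
  ∀ e, (A.F e).Monic ∧ 0 < (A.F e).natDegree ∧ ∀ i, IsIntegral ℤ ((A.F e).coeff i)

/-- The polynomial `φ_e = F_e(l_e(t))`; the coordinates `t_i` of the affine space are the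
variables `inl i`. -/
noncomputable def Arr.phi (e : Fin m) : MvPolynomial (Fin n ⊕ (Fin m × Fin (k + 1))) K :=
  Polynomial.aeval (∑ i, C (A.l e i) * X (Sum.inl i)) (A.F e)

/-- The monomial `Y_e = y_{e,1} ^ (w_{e,1} + 1) ... y_{e,k} ^ (w_{e,k} + 1)`; `y_{e,j}` is the
variable `inr (e, j)`, `j = 1, ..., k`. -/
noncomputable def Arr.yy (e : Fin m) : MvPolynomial (Fin n ⊕ (Fin m × Fin (k + 1))) K :=
  ∏ j : Fin k, X (Sum.inr (e, j.succ)) ^ (A.w e j + 1)

/-- The sum `S_e = y_{e,1} + ... + y_{e,k}`. -/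
noncomputable def ss (K : Type*) [Field K] (n : ℕ) {m k : ℕ} (e : Fin m) :
    MvPolynomial (Fin n ⊕ (Fin m × Fin (k + 1))) K :=
  ∑ j : Fin k, X (Sum.inr (e, j.succ))

/-- The equation `Y_e z_e² + Y_e (S_e - φ_e) z_e + 1`, that is
`z_e + y_{e,1} + ... + y_{e,k} + 1/(z_e Y_e) = φ_e`, multiplied by `z_e Y_e`; `z_e` is the variable
`inr (e, 0)`. -/
noncomputable def Arr.eqn (e : Fin m) : MvPolynomial (Fin n ⊕ (Fin m × Fin (k + 1))) K :=
  A.yy e * X (Sum.inr (e, 0)) ^ 2 + A.yy e * (ss K n e - A.phi e) * X (Sum.inr (e, 0)) + 1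

/-- The coordinate ring of the affine variety
`z_e + y_{e,1} + ... + y_{e,k} + 1/(z_e Y_e) = F_e(l_e(t))`, `e = 1, ..., m`. -/
def Arr.CRing : Type _ :=
  MvPolynomial (Fin n ⊕ (Fin m × Fin (k + 1))) K ⧸ Ideal.span (Set.range A.eqn)

noncomputable instance : CommRing A.CRing :=
  show CommRing (MvPolynomial (Fin n ⊕ (Fin m × Fin (k + 1))) K ⧸
    Ideal.span (Set.range A.eqn)) from inferInstance

/-- The functions on the variety defined by the polynomials. -/
noncomputable def Arr.mkC : MvPolynomial (Fin n ⊕ (Fin m × Fin (k + 1))) K →+* A.CRing :=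
  Ideal.Quotient.mk (Ideal.span (Set.range A.eqn))

theorem Arr.mkC_surjective : Function.Surjective A.mkC := Ideal.Quotient.mk_surjective

theorem Arr.mkC_eqn (e : Fin m) : A.mkC (A.eqn e) = 0 :=
  Ideal.Quotient.eq_zero_iff_mem.2 (Ideal.subset_span ⟨e, rfl⟩)

/-- The universal property of the coordinate ring. -/
noncomputable def Arr.lift {B : Type*} [CommRing B]
    (f : MvPolynomial (Fin n ⊕ (Fin m × Fin (k + 1))) K →+* B)
    (h : ∀ e, f (A.eqn e) = 0) : A.CRing →+* B :=
  Ideal.Quotient.lift (Ideal.span (Set.range A.eqn)) f (by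
    intro a ha
    have h1 : Ideal.span (Set.range A.eqn) ≤ RingHom.ker f := by
      rw [Ideal.span_le]
      rintro x ⟨e, rfl⟩
      exact h e
    exact h1 ha)

theorem Arr.lift_mkC {B : Type*} [CommRing B]
    (f : MvPolynomial (Fin n ⊕ (Fin m × Fin (k + 1))) K →+* B)
    (h : ∀ e, f (A.eqn e) = 0) (p : MvPolynomial (Fin n ⊕ (Fin m × Fin (k + 1))) K) :
    A.lift f h (A.mkC p) = f p :=
  Ideal.Quotient.lift_mk _ _ _

/-- The constants in the coordinate ring. -/
noncomputable def Arr.cst (y : K) : A.CRing := A.mkC (C y)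

/-- The coordinates `t_i`, `z_e` and `y_{e,j}`. -/
noncomputable def Arr.co (s : Fin n ⊕ (Fin m × Fin (k + 1))) : A.CRing := A.mkC (X s)

theorem Arr.eqn_zero (e : Fin m) :
    A.mkC (A.yy e) * A.co (Sum.inr (e, 0)) ^ 2 +
      A.mkC (A.yy e) * (A.mkC (ss K n e) - A.mkC (A.phi e)) * A.co (Sum.inr (e, 0)) + 1 = 0 := by
  have h := A.mkC_eqn e
  unfold Arr.eqn at h
  rw [map_add, map_add, map_mul, map_mul, map_mul, map_sub, map_pow, map_one] at h
  exact h

theorem Arr.mkC_yy (e : Fin m) :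
    A.mkC (A.yy e) = ∏ j : Fin k, A.co (Sum.inr (e, j.succ)) ^ (A.w e j + 1) := by
  unfold Arr.yy Arr.co
  rw [map_prod]
  exact Finset.prod_congr rfl fun j _ => map_pow _ _ _

theorem Arr.mkC_ss (e : Fin m) :
    A.mkC (ss K n e) = ∑ j : Fin k, A.co (Sum.inr (e, j.succ)) := by
  unfold ss Arr.co
  rw [map_sum]

theorem Arr.isUnit_z (e : Fin m) : IsUnit (A.co (Sum.inr (e, 0))) := by
  refine IsUnit.of_mul_eq_one (-(A.mkC (A.yy e) * (A.co (Sum.inr (e, 0)) +
    (A.mkC (ss K n e) - A.mkC (A.phi e))))) ?_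
  linear_combination -(A.eqn_zero e)

theorem Arr.isUnit_yy (e : Fin m) : IsUnit (A.mkC (A.yy e)) := by
  refine IsUnit.of_mul_eq_one (-(A.co (Sum.inr (e, 0)) * (A.co (Sum.inr (e, 0)) +
    (A.mkC (ss K n e) - A.mkC (A.phi e))))) ?_
  linear_combination -(A.eqn_zero e)

theorem Arr.isUnit_co (e : Fin m) (j : Fin (k + 1)) : IsUnit (A.co (Sum.inr (e, j))) := by
  refine Fin.cases (A.isUnit_z e) (fun j => ?_) j
  have h := A.isUnit_yy e
  rw [A.mkC_yy] at h
  exact isUnit_of_dvd_unit ((dvd_pow_self _ (Nat.succ_ne_zero _)).trans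
    (Finset.dvd_prod_of_mem (fun j => A.co (Sum.inr (e, j.succ)) ^ (A.w e j + 1))
      (Finset.mem_univ j))) h

/-- The units `z_e` (for `j = 0`) and `y_{e,j}` (for `j = 1, ..., k`) of the coordinate ring. -/
noncomputable def Arr.unit (e : Fin m) (j : Fin (k + 1)) : A.CRingˣ := (A.isUnit_co e j).unit

theorem Arr.coe_unit (e : Fin m) (j : Fin (k + 1)) :
    (A.unit e j : A.CRing) = A.co (Sum.inr (e, j)) := rfl

/-- The enumeration of the pairs `(a, j)`, `0 ≤ a ≤ r`, `0 ≤ j ≤ k`; the first one is `(0, 0)`. -/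
def pr (r k : ℕ) : Fin ((r + 1) * k + r + 1) ≃ Fin (r + 1) × Fin (k + 1) :=
  (finCongr (by ring)).trans finProdFinEquiv.symm

theorem pr_zero (r k : ℕ) : pr r k 0 = (0, 0) := by
  unfold pr
  rw [Equiv.trans_apply, Equiv.symm_apply_eq]
  ext
  simp

/-- The symbol with the entries `z_e, y_{e,1}, ..., y_{e,k}` for `e = C 0, ..., C r`. -/
noncomputable def Arr.sym {r : ℕ} (C : Fin (r + 1) → Fin m) :
    KQ A.CRing ((r + 1) * k + r + 1) :=
  symb fun p => A.unit (C (pr r k p).1) (pr r k p).2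

/-- `C` is a circuit: the `r + 1` linear forms `l_e`, `e = C 0, ..., C r`, satisfy a linear
relation, all coefficients of which are roots of unity. -/
structure Arr.Circuit {r : ℕ} (C : Fin (r + 1) → Fin m) : Prop where
  inj : Function.Injective C
  rel : ∃ (s : Fin (r + 1) → K) (M : ℕ), M ≠ 0 ∧ (∀ i, s i ^ M = 1) ∧
    ∀ j, ∑ i, s i * A.l (C i) j = 0

/-- The values of the linear forms at complex points, for an embedding `σ` of `K`. -/
noncomputable def Arr.lin (σ : K →+* ℂ) (e : Fin m) (t : Fin n → ℂ) : ℂ :=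
  ∑ i, σ (A.l e i) * t i

/-- The linear forms `l_e`, `e = P 1, ..., P n`, are linearly independent, and the arrangement is
separated over the point where `l_e` takes the value `b_{e,0}` for `e = P 1, ..., P n`: the complex
roots `b_{e,j}` of `F_e`, `e = P 1, ..., P n`, have mutual distances at least `2 k + 5`, and if
`l_e(t)` has distance less than `k + 5/2` from `b_{e,0}`, for `e = P 1, ..., P n`, then
`|F_f(l_f(t))| > k + 2` for all `f` different from `P 1, ..., P n`. -/
structure Arr.Box (σ : K →+* ℂ) (P : Fin n → Fin m) : Prop where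
  inj : Function.Injective P
  det : (Matrix.of fun i j : Fin n => A.l (P i) j).det ≠ 0
  sep : ∃ (g : Fin n → ℕ) (b : (i : Fin n) → Fin (g i + 1) → ℂ),
    (∀ i, (A.F (P i)).map σ = ∏ j, (Polynomial.X - Polynomial.C (b i j))) ∧
    (∀ i j j', j ≠ j' → 2 * (k : ℝ) + 5 ≤ ‖b i j - b i j'‖) ∧
    ∀ t : Fin n → ℂ, (∀ i, ‖A.lin σ (P i) t - b i 0‖ < (k : ℝ) + 5 / 2) →
      ∀ f, (∀ i, P i ≠ f) → (k : ℝ) + 2 < ‖(A.F f).eval₂ σ (A.lin σ f t)‖

/-- The Jacobian criterion at the complex point `p`: the gradients of the equations are linearly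
independent. -/
def Arr.SmoothAt (σ : K →+* ℂ) (p : Fin n ⊕ (Fin m × Fin (k + 1)) → ℂ) : Prop :=
  LinearIndependent ℂ fun (e : Fin m) (s : Fin n ⊕ (Fin m × Fin (k + 1))) =>
    eval₂Hom σ p (pderiv s (A.eqn e))

/-- A torus in the smooth part of the complex points over `σ`. -/
def Arr.Good (σ : K →+* ℂ) {d : ℕ} (T : Torus A.CRing d) : Prop :=
  (∀ θ (y : K), T.e θ (A.cst y) = σ y) ∧ ∀ θ, A.SmoothAt σ fun s => T.e θ (A.co s)

/-- The regulators of the symbols of the circuits `D_1, ..., D_N` are linearly independent: no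
nontrivial real linear combination of them vanishes on all tori of dimension `(r + 1) (k + 1) - 1`
in the smooth part of the complex points over `σ`. -/
def Arr.Indep (σ : K →+* ℂ) {N r : ℕ} (D : Fin N → Fin (r + 1) → Fin m) : Prop :=
  ∀ a : Fin N → ℝ, (∀ T : Torus A.CRing ((r + 1) * k + r), A.Good σ T →
    ∑ i, a i * T.reg (A.sym (D i)) = 0) → a = 0

end Pool.Agent.K7.H1.CF
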