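import Pool.Agent.K7.H1.CF.Ind
import Pool.Agent.Y797.HC.Kum
set_option autoImplicit false

/-!
The coordinate ring is a domain.
-/

namespace Pool.Agent.K7.H1.CF

open MvPolynomial

open Pool.Agent.TH826.MK

open Pool.Agent.Y797.HC (sqrt_indep)

variable {K : Type*} [Field K] {n m k : ℕ} (A : Arr K n m k)

/-- the polynomials `φ_e` in the variables `t_i`, `y_{e,j}` -/
noncomputable def Arr.ph0 (e : Fin m) : MvPolynomial (Fin n ⊕ (Fin m × Fin k)) K :=
  Polynomial.aeval (∑ i, C (A.l e i) * X (Sum.inl i)) (A.F e)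

/-- the monomials `Y_e` -/
noncomputable def Arr.y0 (e : Fin m) : MvPolynomial (Fin n ⊕ (Fin m × Fin k)) K :=
  ∏ j : Fin k, X (Sum.inr (e, j)) ^ (A.w e j + 1)

/-- the sums `S_e` -/
noncomputable def s0 (K : Type*) [Field K] (n : ℕ) {m k : ℕ} (e : Fin m) :
    MvPolynomial (Fin n ⊕ (Fin m × Fin k)) K :=
  ∑ j : Fin k, X (Sum.inr (e, j))

/-- the discriminants -/
noncomputable def Arr.dis (e : Fin m) : MvPolynomial (Fin n ⊕ (Fin m × Fin k)) K :=
  A.y0 e ^ 2 * (s0 K n e - A.ph0 e) ^ 2 - 4 * A.y0 e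

section nonsq

variable (σ : K →+* ℂ)

/-- the points with `y = 1` -/
def p1 (m k : ℕ) (t : Fin n → ℂ) : Fin n ⊕ (Fin m × Fin k) → ℂ := Sum.elim t fun _ => 1

theorem Arr.eval_aeval0 (e : Fin m) (F : Polynomial K) (t : Fin n → ℂ) :
    eval₂Hom σ (p1 m k t) (Polynomial.aeval (∑ i, C (A.l e i) * X (Sum.inl i)) F) =
      F.eval₂ σ (A.lin σ e t) := by
  rw [Polynomial.aeval_def, Polynomial.hom_eval₂]
  congr 1
  · ext y
    simp
  · unfold Arr.lin p1
    simp

theorem Arr.eval_y0 (e : Fin m) (t : Fin n → ℂ) : eval₂Hom σ (p1 m k t) (A.y0 e) = 1 := by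
  unfold Arr.y0
  rw [map_prod]
  refine Finset.prod_eq_one fun j _ => ?_
  rw [map_pow]
  simp [p1]

theorem eval_s0 (e : Fin m) (t : Fin n → ℂ) :
    eval₂Hom σ (p1 m k t) (s0 K n e) = k := by
  unfold s0
  rw [map_sum]
  simp [p1]

theorem Arr.eval_dis (e : Fin m) (t : Fin n → ℂ) :
    eval₂Hom σ (p1 m k t) (A.dis e) = ((k : ℂ) - A.val σ e t) ^ 2 - 4 := by
  unfold Arr.dis Arr.ph0
  rw [map_sub, map_mul, map_mul, map_pow, map_pow, map_sub, A.eval_aeval0, A.eval_y0,
    eval_s0, map_ofNat]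
  unfold Arr.val
  ring

theorem Arr.pderiv_dis (e : Fin m) (t : Fin n → ℂ) (i : Fin n) :
    eval₂Hom σ (p1 m k t) (pderiv (Sum.inl i) (A.dis e)) = -(2 * ((k : ℂ) - A.val σ e t) *
      ((Polynomial.derivative (A.F e)).eval₂ σ (A.lin σ e t) * σ (A.l e i))) := by
  have hY : pderiv (Sum.inl i) (A.y0 e) = 0 := by
    unfold Arr.y0
    refine Finset.prod_induction _ (fun p => pderiv (Sum.inl i) p = 0) (fun a b ha hb => ?_)
      pderiv_one fun j _ => ?_
    · rw [Derivation.leibniz, ha, hb, smul_zero, smul_zero, add_zero]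
    · rw [Derivation.leibniz_pow, pderiv_X_of_ne (by simp)]
      simp
  have hS : pderiv (Sum.inl i) (s0 K n e : MvPolynomial (Fin n ⊕ (Fin m × Fin k)) K) = 0 := by
    unfold s0
    rw [map_sum]
    refine Finset.sum_eq_zero fun j _ => ?_
    rw [pderiv_X_of_ne (by simp)]
  have h4 : pderiv (Sum.inl i) (4 : MvPolynomial (Fin n ⊕ (Fin m × Fin k)) K) = 0 := by
    have : (4 : MvPolynomial (Fin n ⊕ (Fin m × Fin k)) K) = C 4 := (map_ofNat C 4).symm
    rw [this, pderiv_C]
  have h1 : ∀ j : Fin n, pderiv (Sum.inl i : Fin n ⊕ (Fin m × Fin k))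
      (C (A.l e j) * X (Sum.inl j) : MvPolynomial (Fin n ⊕ (Fin m × Fin k)) K) =
      if j = i then C (A.l e j) else 0 := by
    intro j
    rw [pderiv_C_mul]
    by_cases h : j = i
    · subst h
      rw [pderiv_X_self, if_pos rfl, mul_one]
    · rw [pderiv_X_of_ne (fun h' => h (Sum.inl_injective h'.symm).symm), mul_zero, if_neg h]
  have hphi : pderiv (Sum.inl i) (A.ph0 e) =
      Polynomial.aeval (∑ i, C (A.l e i) * X (Sum.inl i)) (Polynomial.derivative (A.F e)) *
        C (A.l e i) := by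
    unfold Arr.ph0
    rw [Derivation.map_aeval, map_sum, Finset.sum_congr rfl fun j _ => h1 j,
      Finset.sum_ite_eq' Finset.univ i, if_pos (Finset.mem_univ _), smul_eq_mul]
  have hD : pderiv (Sum.inl i) (A.dis e) =
      -(2 * A.y0 e ^ 2 * (s0 K n e - A.ph0 e) * pderiv (Sum.inl i) (A.ph0 e)) := by
    unfold Arr.dis
    rw [map_sub, Derivation.leibniz, Derivation.leibniz, Derivation.leibniz_pow,
      Derivation.leibniz_pow, map_sub, hY, hS, h4]
    simp only [smul_eq_mul, mul_zero, zero_sub, smul_zero, add_zero, nsmul_eq_mul, sub_zero]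
    push_cast
    ring
  rw [hD, hphi, map_neg, map_mul, map_mul, map_mul, map_mul, map_pow, map_sub, map_ofNat,
    A.eval_aeval0, A.eval_y0, eval_s0]
  unfold Arr.ph0
  rw [A.eval_aeval0]
  unfold Arr.val
  simp

variable {σ A}

/-- the point at which exactly the discriminant of `P i` vanishes -/
theorem exists_point {P : Fin n → Fin m} (hB : A.Box σ P) (i : Fin n) : ∃ t : Fin n → ℂ,
    eval₂Hom σ (p1 m k t) (A.dis (P i)) = 0 ∧
    (∀ f, f ≠ P i → eval₂Hom σ (p1 m k t) (A.dis f) ≠ 0) ∧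
    ∃ l, eval₂Hom σ (p1 m k t) (pderiv (Sum.inl l) (A.dis (P i))) ≠ 0 := by
  classical
  set c : (Fin 0 → ℝ) → Fin m × Fin (k + 1) → ℂ :=
    fun _ s => if s.2 = 0 ∧ s.1 ≠ P i then Complex.I else 1 with hcdef
  have hc : CD c := by
    refine ⟨fun s => contDiff_const, fun θ i => rfl, fun θ s => ?_⟩
    simp only [hcdef]
    split_ifs
    · exact Complex.norm_I
    · exact norm_one
  obtain ⟨t, H⟩ := exists_PD hB hc
  have hcs : ∀ θ e (j : Fin k), c θ (e, j.succ) = 1 := by
    intro θ e j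
    simp only [hcdef]
    rw [if_neg (fun h => Fin.succ_ne_zero j h.1)]
  have hY : ∀ θ e, A.yv (c θ) e = 1 := by
    intro θ e
    unfold Arr.yv
    exact Finset.prod_eq_one fun j _ => by rw [hcs θ e j, one_pow]
  have hS : ∀ θ e, sv (c θ) e = k := by
    intro θ e
    unfold sv
    simp only [hcs]
    simp
  set θ : Fin 0 → ℝ := fun _ => 0 with hθ
  have hi : A.val σ (P i) (t θ) = (k : ℂ) + 2 := by
    rw [H.val]
    unfold Arr.pv
    rw [hY θ, hS θ]
    have : c θ (P i, 0) = 1 := by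
      simp only [hcdef]
      rw [if_neg (by simp)]
    rw [this]
    norm_num
    ring
  refine ⟨t θ, ?_, fun f hf => ?_, ?_⟩
  · rw [A.eval_dis, hi]
    ring
  · rw [A.eval_dis]
    by_cases hfP : ∃ j, P j = f
    · obtain ⟨j, rfl⟩ := hfP
      have h1 : A.val σ (P j) (t θ) = (k : ℂ) := by
        rw [H.val]
        unfold Arr.pv
        rw [hY θ, hS θ]
        have : c θ (P j, 0) = Complex.I := by
          simp only [hcdef]
          rw [if_pos ⟨trivial, hf⟩]
        rw [this, mul_one, Complex.inv_I]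
        ring
      rw [h1]
      norm_num
    · push Not at hfP
      have h1 := H.far θ f hfP
      intro h
      have h2 : ((k : ℂ) - A.val σ f (t θ)) ^ 2 = 4 := by linear_combination h
      have h3 := congrArg norm h2
      rw [norm_pow] at h3
      have h4 : ‖(4 : ℂ)‖ = 4 := by norm_num
      rw [h4] at h3
      have h5 := norm_sub_norm_le (A.val σ f (t θ)) (k : ℂ)
      rw [norm_sub_rev, Complex.norm_natCast] at h5
      nlinarith [norm_nonneg ((k : ℂ) - A.val σ f (t θ))]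
  · by_contra hcon
    push Not at hcon
    refine hB.det (Matrix.det_eq_zero_of_row_eq_zero i fun l => ?_)
    have h1 := hcon l
    rw [A.pderiv_dis, hi] at h1
    have h2 := H.der θ i
    have h3 : (Polynomial.derivative (A.F (P i))).eval₂ σ (A.lin σ (P i) (t θ)) *
        σ (A.l (P i) l) = 0 := by
      linear_combination (1 / 4) * h1
    exact (map_eq_zero σ).1 ((mul_eq_zero.1 h3).resolve_left h2)

theorem nonsq_aux {P : Fin n → Fin m} (hB : A.Box σ P) (i : Fin n)
    {S S' : Finset (Fin m)} (h1 : P i ∈ S) (h2 : P i ∉ S')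
    (G : MvPolynomial (Fin n ⊕ (Fin m × Fin k)) K) :
    G ^ 2 ≠ (∏ e ∈ S, A.dis e) * ∏ e ∈ S', A.dis e := by
  classical
  intro h
  obtain ⟨t, ht0, htn, l, hk⟩ := exists_point hB i
  set Q : MvPolynomial (Fin n ⊕ (Fin m × Fin k)) K :=
    (∏ e ∈ S.erase (P i), A.dis e) * ∏ e ∈ S', A.dis e with hQ
  have hG : G ^ 2 = A.dis (P i) * Q := by
    rw [h, ← Finset.mul_prod_erase S _ h1, hQ, mul_assoc]
  have hQt : eval₂Hom σ (p1 m k t) Q ≠ 0 := by
    rw [hQ, map_mul, map_prod, map_prod]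
    refine mul_ne_zero ?_ ?_
    · exact Finset.prod_ne_zero_iff.2 fun e he => htn e (Finset.ne_of_mem_erase he)
    · exact Finset.prod_ne_zero_iff.2 fun e he => htn e fun h' => h2 (h' ▸ he)
  have hGt : eval₂Hom σ (p1 m k t) G = 0 := by
    have h3 := congrArg (eval₂Hom σ (p1 m k t)) hG
    rw [map_pow, map_mul, ht0, zero_mul] at h3
    exact pow_eq_zero_iff two_ne_zero |>.1 h3
  have hd := congrArg (fun p => eval₂Hom σ (p1 m k t) (pderiv (Sum.inl l) p)) hG
  simp only [Derivation.leibniz_pow, Derivation.leibniz, smul_eq_mul, nsmul_eq_mul, map_mul,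
    map_add, pow_one, Nat.add_one_sub_one, hGt, ht0, zero_mul, mul_zero, zero_add] at hd
  exact mul_ne_zero hQt hk hd.symm

theorem nonsq (hcov : ∀ e, ∃ (P : Fin n → Fin m) (i : Fin n), A.Box σ P ∧ P i = e)
    {S S' : Finset (Fin m)} (hSS' : S ≠ S') (G : MvPolynomial (Fin n ⊕ (Fin m × Fin k)) K) :
    G ^ 2 ≠ (∏ e ∈ S, A.dis e) * ∏ e ∈ S', A.dis e := by
  classical
  obtain ⟨e, he⟩ : ∃ e, ¬ (e ∈ S ↔ e ∈ S') := by
    by_contra hcon
    push Not at hcon
    exact hSS' (Finset.ext hcon)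
  obtain ⟨P, i, hB, rfl⟩ := hcov e
  by_cases h1 : P i ∈ S
  · exact nonsq_aux hB i h1 (fun h2 => he ⟨fun _ => h2, fun _ => h1⟩) G
  · have h2 : P i ∈ S' := by
      by_contra h2
      exact he ⟨fun h => absurd h h1, fun h => absurd h h2⟩
    rw [mul_comm]
    exact nonsq_aux hB i h2 h1 G

end nonsq

section span

/-- the inclusion of the variables -/
def iv (n m k : ℕ) : Fin n ⊕ (Fin m × Fin k) → Fin n ⊕ (Fin m × Fin (k + 1)) :=
  Sum.elim Sum.inl fun x => Sum.inr (x.1, x.2.succ)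

/-- the functions of the `t_i` and `y_{e,j}` on the variety -/
noncomputable def Arr.io : MvPolynomial (Fin n ⊕ (Fin m × Fin k)) K →+* A.CRing :=
  A.mkC.comp (rename (iv n m k)).toRingHom

theorem Arr.io_C (a : K) : A.io (C a) = A.cst a := by
  unfold Arr.io Arr.cst
  rw [RingHom.comp_apply]
  congr 1
  exact rename_C _ _

theorem Arr.io_X (s : Fin n ⊕ (Fin m × Fin k)) : A.io (X s) = A.co (iv n m k s) := by
  unfold Arr.io Arr.co
  rw [RingHom.comp_apply]
  congr 1
  exact rename_X _ _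

theorem Arr.io_ph0 (e : Fin m) : A.io (A.ph0 e) = A.mkC (A.phi e) := by
  unfold Arr.io Arr.ph0 Arr.phi
  rw [RingHom.comp_apply]
  congr 1
  show (rename (iv n m k)) (Polynomial.aeval _ (A.F e)) = _
  rw [← Polynomial.aeval_algHom_apply]
  congr 1
  simp [map_sum, iv]

theorem Arr.io_y0 (e : Fin m) : A.io (A.y0 e) = A.mkC (A.yy e) := by
  rw [A.mkC_yy]
  unfold Arr.y0
  rw [map_prod]
  refine Finset.prod_congr rfl fun j _ => ?_
  rw [map_pow, A.io_X]
  rfl

theorem Arr.io_s0 (e : Fin m) : A.io (s0 K n e) = A.mkC (ss K n e) := by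
  rw [A.mkC_ss]
  unfold s0
  rw [map_sum]
  refine Finset.sum_congr rfl fun j _ => ?_
  rw [A.io_X]
  rfl

/-- the square roots of the discriminants -/
noncomputable def Arr.ww (e : Fin m) : A.CRing :=
  2 * (A.io (A.y0 e) * A.co (Sum.inr (e, 0))) + A.io (A.y0 e * (s0 K n e - A.ph0 e))

theorem Arr.ww_sq (e : Fin m) : A.ww e * A.ww e = A.io (A.dis e) := by
  have h := A.eqn_zero e
  unfold Arr.ww Arr.dis
  simp only [map_sub, map_mul, map_pow, A.io_ph0, A.io_y0, A.io_s0]
  have h4 : A.io 4 = 4 := map_ofNat _ _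
  rw [h4]
  linear_combination 4 * A.mkC (A.yy e) * h

/-- the additive submonoid generated by the elements `b w_S` -/
noncomputable def Arr.VV : AddSubmonoid A.CRing :=
  AddSubmonoid.closure {x | ∃ (b : MvPolynomial (Fin n ⊕ (Fin m × Fin k)) K)
    (S : Finset (Fin m)), x = A.io b * ∏ e ∈ S, A.ww e}

theorem Arr.mem_VV (b : MvPolynomial (Fin n ⊕ (Fin m × Fin k)) K) (S : Finset (Fin m)) :
    A.io b * ∏ e ∈ S, A.ww e ∈ A.VV := AddSubmonoid.subset_closure ⟨b, S, rfl⟩

theorem Arr.VV_mul {y : A.CRing} (hy : ∀ b S, (A.io b * ∏ e ∈ S, A.ww e) * y ∈ A.VV)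
    {x : A.CRing} (hx : x ∈ A.VV) : x * y ∈ A.VV := by
  induction hx using AddSubmonoid.closure_induction with
  | mem x h =>
    obtain ⟨b, S, rfl⟩ := h
    exact hy b S
  | zero =>
    rw [zero_mul]
    exact A.VV.zero_mem
  | add x x' _ _ h1 h2 =>
    rw [add_mul]
    exact A.VV.add_mem h1 h2

theorem Arr.VV_mul_io (c : MvPolynomial (Fin n ⊕ (Fin m × Fin k)) K) {x : A.CRing}
    (hx : x ∈ A.VV) : x * A.io c ∈ A.VV := by
  refine A.VV_mul (fun b S => ?_) hx
  have e : A.io b * (∏ e ∈ S, A.ww e) * A.io c = A.io (b * c) * ∏ e ∈ S, A.ww e := by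
    rw [map_mul]
    ring
  rw [e]
  exact A.mem_VV _ _

theorem Arr.VV_mul_ww (f : Fin m) {x : A.CRing} (hx : x ∈ A.VV) : x * A.ww f ∈ A.VV := by
  classical
  refine A.VV_mul (fun b S => ?_) hx
  by_cases hf : f ∈ S
  · have e : A.io b * (∏ e ∈ S, A.ww e) * A.ww f =
        A.io (b * A.dis f) * ∏ e ∈ S.erase f, A.ww e := by
      rw [← Finset.mul_prod_erase S _ hf, map_mul, ← A.ww_sq]
      ring
    rw [e]
    exact A.mem_VV _ _
  · have e : A.io b * (∏ e ∈ S, A.ww e) * A.ww f =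
        A.io b * ∏ e ∈ insert f S, A.ww e := by
      rw [Finset.prod_insert hf]
      ring
    rw [e]
    exact A.mem_VV _ _

/-- the product of all `Y_e` -/
noncomputable def Arr.YY : MvPolynomial (Fin n ⊕ (Fin m × Fin k)) K := ∏ e, A.y0 e

theorem Arr.isUnit_YY : IsUnit (A.io A.YY) := by
  unfold Arr.YY
  rw [map_prod]
  refine IsUnit.prod_univ_iff.2 fun e => ?_
  rw [A.io_y0]
  exact A.isUnit_yy e

theorem Arr.VV_mul_pow (N : ℕ) {x : A.CRing} (hx : x ∈ A.VV) : x * A.io A.YY ^ N ∈ A.VV := by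
  rw [← map_pow]
  exact A.VV_mul_io _ hx

theorem Arr.VV_top [CharZero K] (x : A.CRing) : ∃ N : ℕ, x * A.io A.YY ^ N ∈ A.VV := by
  classical
  obtain ⟨p, rfl⟩ := A.mkC_surjective x
  induction p using MvPolynomial.induction_on with
  | C c =>
    have h := A.mem_VV (C c) ∅
    rw [Finset.prod_empty, mul_one, A.io_C] at h
    exact ⟨0, by rw [pow_zero, mul_one]; exact h⟩
  | add p q hp hq =>
    obtain ⟨N1, h1⟩ := hp
    obtain ⟨N2, h2⟩ := hq
    refine ⟨N1 + N2, ?_⟩
    rw [map_add, add_mul]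
    refine A.VV.add_mem ?_ ?_
    · rw [pow_add, ← mul_assoc]
      exact A.VV_mul_pow _ h1
    · rw [add_comm N1, pow_add, ← mul_assoc]
      exact A.VV_mul_pow _ h2
  | mul_X p s hp =>
    obtain ⟨N, h⟩ := hp
    rw [map_mul]
    have h0 : A.mkC (X s) = A.co s := rfl
    rw [h0]
    rcases s with i | ⟨e, j⟩
    · refine ⟨N, ?_⟩
      have h1 := A.VV_mul_io (X (Sum.inl i)) h
      rw [A.io_X] at h1
      have h2 : A.mkC p * A.co (Sum.inl i) * A.io A.YY ^ N =
          A.mkC p * A.io A.YY ^ N * A.co (iv n m k (Sum.inl i)) := by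
        rw [mul_right_comm]
        rfl
      rw [h2]
      exact h1
    · refine Fin.cases ?_ (fun j => ?_) j
      · refine ⟨N + 1, ?_⟩
        set x := A.mkC p * A.io A.YY ^ N with hx
        set Q : MvPolynomial (Fin n ⊕ (Fin m × Fin k)) K :=
          ∏ f ∈ Finset.univ.erase e, A.y0 f with hQ
        have hYQ : A.YY = A.y0 e * Q := by
          rw [hQ, Arr.YY, Finset.mul_prod_erase _ _ (Finset.mem_univ e)]
        have h1 := A.VV_mul_io (C (1 / 2) * Q) (A.VV_mul_ww e h)
        have h2 := A.VV_mul_io (-(C (1 / 2) * Q * (A.y0 e * (s0 K n e - A.ph0 e)))) h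
        have h3 := A.VV.add_mem h1 h2
        have h5 : (2 : A.CRing) * A.io (C (1 / 2)) = 1 := by
          have h7 : (2 : A.CRing) = A.io (C 2) := by
            rw [show (C 2 : MvPolynomial (Fin n ⊕ (Fin m × Fin k)) K) = 2 from map_ofNat C 2,
              map_ofNat]
          rw [h7, ← map_mul, ← map_mul]
          norm_num
        have e1 : A.mkC p * A.co (Sum.inr (e, 0)) * A.io A.YY ^ (N + 1) =
            x * A.ww e * A.io (C (1 / 2) * Q) +
              x * A.io (-(C (1 / 2) * Q * (A.y0 e * (s0 K n e - A.ph0 e)))) := by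
          have e2 : A.mkC p * A.co (Sum.inr (e, 0)) * A.io A.YY ^ (N + 1) =
              x * (A.io (A.y0 e) * A.io Q * A.co (Sum.inr (e, 0))) := by
            rw [hx, pow_succ, ← map_mul, ← hYQ]
            ring
          rw [e2]
          unfold Arr.ww
          simp only [map_mul, map_neg]
          linear_combination -(x * A.io (A.y0 e) * A.io Q * A.co (Sum.inr (e, 0))) * h5
        rw [e1]
        exact h3
      · refine ⟨N, ?_⟩
        have h1 := A.VV_mul_io (X (Sum.inr (e, j))) h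
        rw [A.io_X] at h1
        have h2 : A.mkC p * A.co (Sum.inr (e, j.succ)) * A.io A.YY ^ N =
            A.mkC p * A.io A.YY ^ N * A.co (iv n m k (Sum.inr (e, j))) := by
          rw [mul_right_comm]
          rfl
        rw [h2]
        exact h1

theorem Arr.exists_rep [CharZero K] {x : A.CRing} (hx : x ∈ A.VV) :
    ∃ b : Finset (Fin m) → MvPolynomial (Fin n ⊕ (Fin m × Fin k)) K,
      x = ∑ S, A.io (b S) * ∏ e ∈ S, A.ww e := by
  classical
  induction hx using AddSubmonoid.closure_induction with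
  | mem x h =>
    obtain ⟨b, S, rfl⟩ := h
    refine ⟨fun T => if T = S then b else 0, ?_⟩
    rw [Finset.sum_eq_single S]
    · simp only [if_true]
    · intro T _ hT
      simp only [hT, if_false, map_zero, zero_mul]
    · exact fun h => absurd (Finset.mem_univ _) h
  | zero => exact ⟨fun _ => 0, by simp⟩
  | add x y _ _ h1 h2 =>
    obtain ⟨b, hb⟩ := h1
    obtain ⟨c, hc⟩ := h2
    refine ⟨fun S => b S + c S, ?_⟩
    rw [hb, hc, ← Finset.sum_add_distrib]
    exact Finset.sum_congr rfl fun S _ => by rw [map_add, add_mul]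

end span

theorem alg1 {Ω : Type*} [Field Ω] (h2 : (2 : Ω) ≠ 0) {y s p x : Ω} (hy : y ≠ 0)
    (h : x ^ 2 = y ^ 2 * (s - p) ^ 2 - 4 * y) :
    y * ((x - y * (s - p)) / (2 * y)) ^ 2 + y * (s - p) * ((x - y * (s - p)) / (2 * y)) + 1 =
      0 := by
  field_simp
  linear_combination h

theorem alg2 {Ω : Type*} [Field Ω] (h2 : (2 : Ω) ≠ 0) {y s p x : Ω} (hy : y ≠ 0) :
    2 * (y * ((x - y * (s - p)) / (2 * y))) + y * (s - p) = x := by
  field_simp
  ring

theorem y0_ne_zero (e : Fin m) : A.y0 e ≠ 0 := by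
  unfold Arr.y0
  exact Finset.prod_ne_zero_iff.2 fun j _ => pow_ne_zero _ (X_ne_zero _)

/-- The coordinate ring is a domain. -/
theorem isDomain_CRing [CharZero K] (σ : K →+* ℂ)
    (hcov : ∀ e, ∃ (P : Fin n → Fin m) (i : Fin n), A.Box σ P ∧ P i = e) :
    IsDomain A.CRing := by
  classical
  set R := MvPolynomial (Fin n ⊕ (Fin m × Fin k)) K with hR
  set F := FractionRing R
  set Ω := AlgebraicClosure F
  have : CharZero F := charZero_of_injective_algebraMap (IsFractionRing.injective R F)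
  set j : R →+* Ω := (algebraMap F Ω).comp (algebraMap R F) with hj
  have hjinj : Function.Injective j := (algebraMap F Ω).injective.comp
    (IsFractionRing.injective R F)
  have hw : ∀ e, ∃ w : Ω, w ^ 2 = algebraMap F Ω (algebraMap R F (A.dis e)) := fun e =>
    IsAlgClosed.exists_pow_nat_eq _ (by norm_num)
  choose w hw using hw
  have hind := sqrt_indep (F := F) (Ω := Ω) (fun e => algebraMap R F (A.dis e)) w hw (by
    intro S S' hSS' a ha
    have hint : IsIntegral R (a ^ 2) := by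
      rw [ha, ← map_prod, ← map_prod, ← map_mul]
      exact isIntegral_algebraMap
    obtain ⟨G, hG⟩ := IsIntegrallyClosed.exists_algebraMap_eq_of_isIntegral_pow
      (by norm_num : 0 < 2) hint
    refine nonsq hcov hSS' G ?_
    apply IsFractionRing.injective R F
    rw [map_pow, hG, ha, map_mul, map_prod, map_prod])
  have hjY : ∀ e, j (A.y0 e) ≠ 0 := fun e h =>
    y0_ne_zero A e (hjinj (h.trans (map_zero j).symm))
  set B : Fin m → R := fun e => A.y0 e * (s0 K n e - A.ph0 e) with hB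
  set ζ : Fin m → Ω := fun e => (w e - j (B e)) / (2 * j (A.y0 e)) with hζ
  set Φ0 : MvPolynomial (Fin n ⊕ (Fin m × Fin (k + 1))) K →+* Ω :=
    eval₂Hom (j.comp C) (Sum.elim (fun i => j (X (Sum.inl i)))
      (fun x => Fin.cases (ζ x.1) (fun j' => j (X (Sum.inr (x.1, j')))) x.2)) with hΦ0
  have hX : ∀ s, Φ0 (X (iv n m k s)) = j (X s) := by
    intro s
    rcases s with i | ⟨e, l⟩
    · simp [hΦ0, iv]
    · simp [hΦ0, iv]
  have hCc : ∀ c, Φ0 (C c) = j (C c) := by
    intro c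
    simp [hΦ0]
  have hren : ∀ b : R, Φ0 (rename (iv n m k) b) = j b := by
    intro b
    induction b using MvPolynomial.induction_on with
    | C c => rw [rename_C, hCc]
    | add p q hp hq => simp only [map_add, hp, hq]
    | mul_X p k hp => rw [map_mul, map_mul, hp, map_mul, rename_X, hX]
  have hphi : ∀ e, Φ0 (A.phi e) = j (A.ph0 e) := by
    intro e
    rw [← hren]
    congr 1
    unfold Arr.phi Arr.ph0
    rw [← Polynomial.aeval_algHom_apply]
    congr 1
    simp [map_sum, iv]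
  have hyy : ∀ e, Φ0 (A.yy e) = j (A.y0 e) := by
    intro e
    rw [← hren]
    congr 1
    unfold Arr.yy Arr.y0
    simp [map_prod, iv]
  have hss : ∀ e, Φ0 (ss K n e) = j (s0 K n e) := by
    intro e
    rw [← hren]
    congr 1
    unfold ss s0
    simp [map_sum, iv]
  have h2 : (2 : Ω) ≠ 0 := two_ne_zero
  have hz : ∀ e, Φ0 (X (Sum.inr (e, 0))) = ζ e := by
    intro e
    simp [hΦ0]
  have hwd : ∀ e, w e ^ 2 = j (A.y0 e) ^ 2 * (j (s0 K n e) - j (A.ph0 e)) ^ 2 -
      4 * j (A.y0 e) := by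
    intro e
    rw [hw]
    show j (A.dis e) = _
    unfold Arr.dis
    rw [map_sub, map_mul, map_mul, map_pow, map_pow, map_sub, map_ofNat]
  have hBe : ∀ e, j (B e) = j (A.y0 e) * (j (s0 K n e) - j (A.ph0 e)) := by
    intro e
    rw [hB]
    simp only [map_mul, map_sub]
  have hζe : ∀ e, ζ e = (w e - j (A.y0 e) * (j (s0 K n e) - j (A.ph0 e))) /
      (2 * j (A.y0 e)) := by
    intro e
    rw [← hBe]
  have hker : ∀ e, Φ0 (A.eqn e) = 0 := by
    intro e
    unfold Arr.eqn
    rw [map_add, map_add, map_mul, map_mul, map_mul, map_sub, map_pow, map_one, hphi, hyy, hss,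
      hz, hζe]
    exact alg1 h2 (hjY e) (hwd e)
  set Φ : A.CRing →+* Ω := A.lift Φ0 hker with hΦ
  have hΦio : ∀ b, Φ (A.io b) = j b := by
    intro b
    rw [← hren]
    exact A.lift_mkC _ _ _
  have hΦco : ∀ e, Φ (A.co (Sum.inr (e, 0))) = ζ e := by
    intro e
    rw [← hz]
    exact A.lift_mkC _ _ _
  have hΦw : ∀ e, Φ (A.ww e) = w e := by
    intro e
    unfold Arr.ww
    rw [map_add, map_mul, map_mul, hΦio, hΦio, hΦco, map_ofNat, hζe]
    have h5 := hjY e
    have h6 : j (A.y0 e * (s0 K n e - A.ph0 e)) =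
        j (A.y0 e) * (j (s0 K n e) - j (A.ph0 e)) := by rw [map_mul, map_sub]
    rw [h6]
    exact alg2 h2 h5
  have hinj : Function.Injective Φ := by
    rw [injective_iff_map_eq_zero]
    intro x hx
    obtain ⟨N, hN⟩ := A.VV_top x
    obtain ⟨b, hb⟩ := A.exists_rep hN
    have h3 : ∑ S, (algebraMap R F (b S)) • ∏ e ∈ S, w e = 0 := by
      have h6 : Φ (x * A.io A.YY ^ N) = 0 := by rw [map_mul, hx, zero_mul]
      rw [← h6, hb, map_sum]
      refine Finset.sum_congr rfl fun S _ => ?_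
      rw [map_mul, hΦio, map_prod, Algebra.smul_def]
      congr 1
      exact Finset.prod_congr rfl fun e _ => (hΦw e).symm
    have h4 := Fintype.linearIndependent_iff.1 hind _ h3
    have h7 : x * A.io A.YY ^ N = 0 := by
      rw [hb]
      refine Finset.sum_eq_zero fun S _ => ?_
      have h5 : b S = 0 := by
        apply IsFractionRing.injective R F
        rw [h4 S, map_zero]
      rw [h5, map_zero, zero_mul]
    exact (A.isUnit_YY.pow N).mul_left_eq_zero.1 h7
  exact hinj.isDomain Φ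

theorem main.{u, v} (n m k r N : ℕ) (K : Type u) [Field K] [CharZero K] (σ : K →+* ℂ)
    (A : Arr K n m k) (hA : A.Integral) (D : Fin N → Fin (r + 1) → Fin m)
    (hD : ∀ i, A.Circuit (D i)) (hdist : ∀ i i', Set.range (D i) = Set.range (D i') → i = i')
    (hB : ∀ i, ∃ P : Fin n → Fin m, A.Box σ P ∧ (∀ j, P j ≠ D i 0) ∧
      ∀ b : Fin r, ∃ j, P j = D i b.succ)
    (hcov : ∀ e, ∃ (P : Fin n → Fin m) (i : Fin n), A.Box σ P ∧ P i = e) :
    IsDomain A.CRing ∧
      (∀ (L : Type v) [Field L] [Algebra A.CRing L] [IsFractionRing A.CRing L] (i : Fin N),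
        KQ.map ((r + 1) * k + r + 1) (algebraMap A.CRing L) (A.sym (D i)) ∈
          Unramified L ((r + 1) * k + r + 1)) ∧
      A.Indep σ D :=
  ⟨isDomain_CRing A σ hcov, fun _ _ _ _ i => sym_mem_unramified _ hA (hD i),
    independent D (fun i => (hD i).inj) hdist hB⟩

end Pool.Agent.K7.H1.CF
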