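import Pool.Agent.K7.H1.CF.Def
import Pool.Agent.TH826.MK.Tori
import Pool.Agent.TH826.UH.Sep
set_option autoImplicit false

/-!
Evaluation at complex points, tori, the partial derivatives of the equations.
-/

namespace Pool.Agent.K7.H1.CF

open MvPolynomial

open Pool.Agent.TH826.MK

section ev

variable {K : Type*} [Field K] (σ : K →+* ℂ) {n m k : ℕ} (A : Arr K n m k)

/-- the values of the polynomials `φ_e` -/
noncomputable def Arr.val (e : Fin m) (t : Fin n → ℂ) : ℂ := (A.F e).eval₂ σ (A.lin σ e t)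

/-- the values of the monomials `Y_e` -/
def Arr.yv (u : Fin m × Fin (k + 1) → ℂ) (e : Fin m) : ℂ :=
  ∏ j : Fin k, u (e, j.succ) ^ (A.w e j + 1)

/-- the values of the sums `S_e` -/
def sv {m k : ℕ} (u : Fin m × Fin (k + 1) → ℂ) (e : Fin m) : ℂ := ∑ j : Fin k, u (e, j.succ)

theorem Arr.eval_aeval (e : Fin m) (F : Polynomial K) (t : Fin n → ℂ)
    (u : Fin m × Fin (k + 1) → ℂ) :
    eval₂Hom σ (Sum.elim t u) (Polynomial.aeval (∑ i, C (A.l e i) * X (Sum.inl i)) F) =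
      F.eval₂ σ (A.lin σ e t) := by
  rw [Polynomial.aeval_def, Polynomial.hom_eval₂]
  congr 1
  · ext y
    simp
  · unfold Arr.lin
    simp

theorem Arr.eval_phi (e : Fin m) (t : Fin n → ℂ) (u : Fin m × Fin (k + 1) → ℂ) :
    eval₂Hom σ (Sum.elim t u) (A.phi e) = A.val σ e t := A.eval_aeval σ e _ t u

theorem Arr.eval_yy (e : Fin m) (t : Fin n → ℂ) (u : Fin m × Fin (k + 1) → ℂ) :
    eval₂Hom σ (Sum.elim t u) (A.yy e) = A.yv u e := by
  unfold Arr.yy Arr.yv
  rw [map_prod]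
  refine Finset.prod_congr rfl fun j _ => ?_
  rw [map_pow]
  simp

theorem eval_ss (e : Fin m) (t : Fin n → ℂ) (u : Fin m × Fin (k + 1) → ℂ) :
    eval₂Hom σ (Sum.elim t u) (ss K n e) = sv u e := by
  unfold ss sv
  rw [map_sum]
  refine Finset.sum_congr rfl fun j _ => ?_
  simp

theorem Arr.eval_eqn (e : Fin m) (t : Fin n → ℂ) (u : Fin m × Fin (k + 1) → ℂ) :
    eval₂Hom σ (Sum.elim t u) (A.eqn e) = A.yv u e * u (e, 0) ^ 2 +
      A.yv u e * (sv u e - A.val σ e t) * u (e, 0) + 1 := by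
  unfold Arr.eqn
  rw [map_add, map_add, map_mul, map_mul, map_mul, map_sub, map_pow, map_one, A.eval_phi,
    A.eval_yy, eval_ss]
  simp

/-- the complex points -/
def Arr.IsPt (t : Fin n → ℂ) (u : Fin m × Fin (k + 1) → ℂ) : Prop :=
  ∀ e, A.yv u e * u (e, 0) ^ 2 + A.yv u e * (sv u e - A.val σ e t) * u (e, 0) + 1 = 0

variable {σ A}

/-- evaluation at a complex point -/
noncomputable def Arr.IsPt.ev {t : Fin n → ℂ} {u : Fin m × Fin (k + 1) → ℂ}
    (h : A.IsPt σ t u) : A.CRing →+* ℂ :=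
  A.lift (eval₂Hom σ (Sum.elim t u)) fun e => by
    rw [A.eval_eqn]
    exact h e

theorem Arr.IsPt.ev_mk {t : Fin n → ℂ} {u : Fin m × Fin (k + 1) → ℂ} (h : A.IsPt σ t u)
    (p : MvPolynomial (Fin n ⊕ (Fin m × Fin (k + 1))) K) :
    h.ev (A.mkC p) = eval₂Hom σ (Sum.elim t u) p :=
  A.lift_mkC _ _ _

theorem Arr.IsPt.ev_cst {t : Fin n → ℂ} {u : Fin m × Fin (k + 1) → ℂ} (h : A.IsPt σ t u)
    (y : K) : h.ev (A.cst y) = σ y := by
  unfold Arr.cst
  rw [h.ev_mk]
  simp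

theorem Arr.IsPt.ev_co {t : Fin n → ℂ} {u : Fin m × Fin (k + 1) → ℂ} (h : A.IsPt σ t u)
    (s : Fin n ⊕ (Fin m × Fin (k + 1))) : h.ev (A.co s) = Sum.elim t u s := by
  unfold Arr.co
  rw [h.ev_mk]
  simp

theorem Arr.IsPt.ev_congr {t t' : Fin n → ℂ} {u u' : Fin m × Fin (k + 1) → ℂ}
    (h : A.IsPt σ t u) (h' : A.IsPt σ t' u') (e1 : t = t') (e2 : u = u') : h.ev = h'.ev := by
  subst e1
  subst e2
  rfl

theorem Arr.contDiff_ev {d : ℕ} {t : (Fin d → ℝ) → Fin n → ℂ}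
    {u : (Fin d → ℝ) → Fin m × Fin (k + 1) → ℂ}
    (h : ∀ θ, A.IsPt σ (t θ) (u θ)) (ht : ∀ i, ContDiff ℝ 2 fun θ => t θ i)
    (hu : ∀ e, ContDiff ℝ 2 fun θ => u θ e) (a : A.CRing) :
    ContDiff ℝ 2 fun θ => (h θ).ev a := by
  obtain ⟨p, rfl⟩ := A.mkC_surjective a
  simp only [Arr.IsPt.ev_mk]
  induction p using MvPolynomial.induction_on with
  | C c => simpa using contDiff_const
  | add p q hp hq => simpa using hp.add hq
  | mul_X p k hp =>
    rcases k with k | k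
    · simpa using hp.mul (ht k)
    · simpa using hp.mul (hu k)

/-- tori -/
noncomputable def Arr.mkT {d : ℕ} {t : (Fin d → ℝ) → Fin n → ℂ}
    {u : (Fin d → ℝ) → Fin m × Fin (k + 1) → ℂ}
    (h : ∀ θ, A.IsPt σ (t θ) (u θ)) (ht : ∀ i, ContDiff ℝ 2 fun θ => t θ i)
    (hu : ∀ e, ContDiff ℝ 2 fun θ => u θ e) (hpt : ∀ θ i, t (θ + Pi.single i 1) = t θ)
    (hpu : ∀ θ i, u (θ + Pi.single i 1) = u θ) : Torus A.CRing d where
  e θ := (h θ).ev
  smooth := Arr.contDiff_ev h ht hu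
  periodic θ i := Arr.IsPt.ev_congr _ _ (hpt θ i) (hpu θ i)

end ev

section smooth

variable {K : Type*} [Field K] (σ : K →+* ℂ) {n m k : ℕ} (A : Arr K n m k)

theorem Arr.pderiv_yy (e : Fin m) {s : Fin n ⊕ (Fin m × Fin (k + 1))}
    (hs : ∀ j : Fin k, s ≠ Sum.inr (e, j.succ)) : pderiv s (A.yy e) = 0 := by
  unfold Arr.yy
  refine Finset.prod_induction _ (fun p => pderiv s p = 0) (fun a b ha hb => ?_) pderiv_one
    fun j _ => ?_
  · rw [Derivation.leibniz, ha, hb, smul_zero, smul_zero, add_zero]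
  · rw [Derivation.leibniz_pow, pderiv_X_of_ne (hs j).symm]
    simp

theorem pderiv_ss (e : Fin m) {s : Fin n ⊕ (Fin m × Fin (k + 1))}
    (hs : ∀ j : Fin k, s ≠ Sum.inr (e, j.succ)) : pderiv s (ss K n e) = 0 := by
  unfold ss
  rw [map_sum]
  refine Finset.sum_eq_zero fun j _ => ?_
  rw [pderiv_X_of_ne (hs j).symm]

theorem Arr.pderiv_inl (e : Fin m) (t : Fin n → ℂ) (u : Fin m × Fin (k + 1) → ℂ) (i : Fin n) :
    eval₂Hom σ (Sum.elim t u) (pderiv (Sum.inl i) (A.eqn e)) =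
      -((Polynomial.derivative (A.F e)).eval₂ σ (A.lin σ e t) * (A.yv u e * u (e, 0))) *
        σ (A.l e i) := by
  have hY : pderiv (Sum.inl i) (A.yy e) = 0 := A.pderiv_yy e fun j => by simp
  have hS : pderiv (Sum.inl i) (ss K n e : MvPolynomial (Fin n ⊕ (Fin m × Fin (k + 1))) K) = 0 :=
    pderiv_ss e fun j => by simp
  have h1 : ∀ j : Fin n, pderiv (Sum.inl i : Fin n ⊕ (Fin m × Fin (k + 1)))
      (C (A.l e j) * X (Sum.inl j) : MvPolynomial (Fin n ⊕ (Fin m × Fin (k + 1))) K) =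
      if j = i then C (A.l e j) else 0 := by
    intro j
    rw [pderiv_C_mul]
    by_cases h : j = i
    · subst h
      rw [pderiv_X_self, if_pos rfl, mul_one]
    · rw [pderiv_X_of_ne (fun h' => h (Sum.inl_injective h'.symm).symm), mul_zero, if_neg h]
  have hphi : pderiv (Sum.inl i) (A.phi e) =
      Polynomial.aeval (∑ i, C (A.l e i) * X (Sum.inl i)) (Polynomial.derivative (A.F e)) *
        C (A.l e i) := by
    unfold Arr.phi
    rw [Derivation.map_aeval, map_sum, Finset.sum_congr rfl fun j _ => h1 j,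
      Finset.sum_ite_eq' Finset.univ i, if_pos (Finset.mem_univ _), smul_eq_mul]
  have hD : pderiv (Sum.inl i) (A.eqn e) = -(pderiv (Sum.inl i) (A.phi e) *
      (A.yy e * X (Sum.inr (e, 0)))) := by
    unfold Arr.eqn
    rw [map_add, map_add, Derivation.leibniz, Derivation.leibniz, Derivation.leibniz,
      Derivation.leibniz_pow, pderiv_one, map_sub, hY, hS, pderiv_X_of_ne (by simp)]
    simp only [smul_eq_mul, mul_zero, zero_sub, smul_zero, add_zero, zero_add]
    ring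
  rw [hD, hphi, map_neg, map_mul, map_mul, map_mul, A.eval_aeval, A.eval_yy]
  simp
  ring

theorem Arr.pderiv_inr (e f : Fin m) (t : Fin n → ℂ) (u : Fin m × Fin (k + 1) → ℂ) :
    eval₂Hom σ (Sum.elim t u) (pderiv (Sum.inr (f, 0)) (A.eqn e)) =
      if e = f then A.yv u e * (2 * u (e, 0) + (sv u e - A.val σ e t)) else 0 := by
  have hY : pderiv (Sum.inr (f, 0)) (A.yy e) = 0 := A.pderiv_yy e fun j h => by
    have h1 := congrArg Prod.snd (Sum.inr_injective h)
    exact Fin.succ_ne_zero j h1.symm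
  have hS : pderiv (Sum.inr (f, 0))
      (ss K n e : MvPolynomial (Fin n ⊕ (Fin m × Fin (k + 1))) K) = 0 := pderiv_ss e fun j h => by
    have h1 := congrArg Prod.snd (Sum.inr_injective h)
    exact Fin.succ_ne_zero j h1.symm
  have hphi : pderiv (Sum.inr (f, 0)) (A.phi e) = 0 := by
    have hs : ∑ i, pderiv (Sum.inr (f, 0))
        (C (A.l e i) * X (Sum.inl i) : MvPolynomial (Fin n ⊕ (Fin m × Fin (k + 1))) K) = 0 := by
      refine Finset.sum_eq_zero fun i _ => ?_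
      rw [pderiv_C_mul, pderiv_X_of_ne (by simp), mul_zero]
    unfold Arr.phi
    rw [Derivation.map_aeval, map_sum, hs, smul_zero]
  have hD : pderiv (Sum.inr (f, 0)) (A.eqn e) =
      A.yy e * (2 * X (Sum.inr (e, 0)) + (ss K n e - A.phi e)) *
        pderiv (Sum.inr (f, 0)) (X (Sum.inr (e, 0))) := by
    unfold Arr.eqn
    rw [map_add, map_add, Derivation.leibniz, Derivation.leibniz, Derivation.leibniz,
      Derivation.leibniz_pow, pderiv_one, map_sub, hY, hS, hphi]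
    simp only [smul_eq_mul, mul_zero, add_zero, sub_zero, nsmul_eq_mul]
    push_cast
    ring
  rw [hD]
  by_cases h : e = f
  · subst h
    rw [pderiv_X_self, if_pos rfl, mul_one, map_mul, map_add, map_mul, map_sub, A.eval_phi,
      A.eval_yy, eval_ss]
    simp
  · rw [pderiv_X_of_ne (fun h' => h (congrArg Prod.fst (Sum.inr_injective h'))), if_neg h]
    simp

end smooth

end Pool.Agent.K7.H1.CF
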