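import Pool.Agent.K7.H1.CF.Unr
set_option autoImplicit false

/-!
The involutions `z_e ↦ 1/(z_e Y_e)`, and their action on the symbols.
-/

namespace Pool.Agent.K7.H1.CF

open Pool.Agent.TH826.MK (KQ symb Torus symb_update_mul symb_update_zpow)

open Pool.Agent.TH826.SX

open Pool.Agent.TH690.SF (symb_update_prod symb_update_pow)

section lin

variable {R : Type*} [CommRing R] {N : ℕ} (ρ : KQ R N →ₗ[ℚ] ℝ)

theorem reg_update_pow (a : Fin N → Rˣ) (i : Fin N) (x : Rˣ) (k : ℕ) :
    ρ (symb (Function.update a i (x ^ k))) = k * ρ (symb (Function.update a i x)) := by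
  have h := symb_update_zpow a i x (k : ℤ)
  rw [zpow_natCast, Int.cast_natCast] at h
  rw [h, map_smul, Rat.smul_def]
  push_cast
  ring

theorem reg_upd_inv (a : Fin N → Rˣ) (i : Fin N) (x : Rˣ) :
    ρ (symb (Function.update a i x⁻¹)) = - ρ (symb (Function.update a i x)) := by
  have h := symb_update_zpow a i x (-1)
  rw [zpow_neg_one] at h
  rw [h, map_smul, Rat.smul_def]
  push_cast
  ring

theorem reg_upd_one (a : Fin N → Rˣ) (i : Fin N) :
    ρ (symb (Function.update a i 1)) = 0 := by
  have h := reg_update_pow ρ a i 1 0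
  rwa [pow_zero, Nat.cast_zero, zero_mul] at h

theorem reg_update_prod (a : Fin N → Rˣ) (i : Fin N) {ι : Type*} (s : Finset ι) (g : ι → Rˣ) :
    ρ (symb (Function.update a i (∏ j ∈ s, g j))) =
      ∑ j ∈ s, ρ (symb (Function.update a i (g j))) := by
  classical
  induction s using Finset.induction_on with
  | empty => rw [Finset.prod_empty, Finset.sum_empty, reg_upd_one]
  | insert j s hj ih =>
    rw [Finset.prod_insert hj, Finset.sum_insert hj, symb_update_mul, map_add, ih]

end lin

section flip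

variable {K : Type*} [Field K] {n m k : ℕ} (A : Arr K n m k)

open Classical in
/-- the images of the coordinates under the involutions -/
noncomputable def Arr.fim (E : Finset (Fin m)) (s : Fin n ⊕ (Fin m × Fin (k + 1))) : A.CRing :=
  Sum.elim (fun i => A.co (Sum.inl i))
    (fun x => if x.2 = 0 ∧ x.1 ∈ E then A.mkC (A.phi x.1) - A.mkC (ss K n x.1) -
      A.co (Sum.inr x) else A.co (Sum.inr x)) s

/-- the map of the polynomial ring -/
noncomputable def Arr.fpol (E : Finset (Fin m)) :
    MvPolynomial (Fin n ⊕ (Fin m × Fin (k + 1))) K →+* A.CRing :=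
  MvPolynomial.eval₂Hom (A.mkC.comp MvPolynomial.C) (A.fim E)

variable {A}

theorem fim_inl (E : Finset (Fin m)) (i : Fin n) : A.fim E (Sum.inl i) = A.co (Sum.inl i) := rfl

theorem fim_succ (E : Finset (Fin m)) (e : Fin m) (j : Fin k) :
    A.fim E (Sum.inr (e, j.succ)) = A.co (Sum.inr (e, j.succ)) := by
  unfold Arr.fim
  rw [Sum.elim_inr, if_neg (fun h => Fin.succ_ne_zero j h.1)]

theorem fim_zero (E : Finset (Fin m)) (e : Fin m) : A.fim E (Sum.inr (e, 0)) =
    if e ∈ E then A.mkC (A.phi e) - A.mkC (ss K n e) - A.co (Sum.inr (e, 0)) else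
      A.co (Sum.inr (e, 0)) := by
  unfold Arr.fim
  rw [Sum.elim_inr]
  by_cases h : e ∈ E
  · rw [if_pos ⟨rfl, h⟩, if_pos h]
  · rw [if_neg (fun h' => h h'.2), if_neg h]

theorem fpol_X (E : Finset (Fin m)) (s : Fin n ⊕ (Fin m × Fin (k + 1))) :
    A.fpol E (MvPolynomial.X s) = A.fim E s := by
  unfold Arr.fpol
  simp

theorem fpol_C (E : Finset (Fin m)) (y : K) : A.fpol E (MvPolynomial.C y) = A.cst y := by
  unfold Arr.fpol Arr.cst
  simp

theorem fpol_yy (E : Finset (Fin m)) (e : Fin m) : A.fpol E (A.yy e) = A.mkC (A.yy e) := by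
  rw [A.mkC_yy]
  unfold Arr.yy
  rw [map_prod]
  refine Finset.prod_congr rfl fun j _ => ?_
  rw [map_pow, fpol_X, fim_succ]

theorem fpol_ss (E : Finset (Fin m)) (e : Fin m) : A.fpol E (ss K n e) = A.mkC (ss K n e) := by
  rw [A.mkC_ss]
  unfold ss
  rw [map_sum]
  refine Finset.sum_congr rfl fun j _ => ?_
  rw [fpol_X, fim_succ]

theorem fpol_phi (E : Finset (Fin m)) (e : Fin m) : A.fpol E (A.phi e) = A.mkC (A.phi e) := by
  unfold Arr.phi
  rw [Polynomial.aeval_def, Polynomial.hom_eval₂, Polynomial.hom_eval₂]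
  congr 1
  · ext y
    exact fpol_C E y
  · rw [map_sum, map_sum]
    refine Finset.sum_congr rfl fun i _ => ?_
    rw [map_mul, map_mul, fpol_C, fpol_X, fim_inl]
    rfl

theorem fpol_eqn (E : Finset (Fin m)) (e : Fin m) : A.fpol E (A.eqn e) = 0 := by
  unfold Arr.eqn
  rw [map_add, map_add, map_mul, map_mul, map_mul, map_sub, map_pow, map_one, fpol_yy, fpol_ss,
    fpol_phi, fpol_X, fim_zero]
  have h := A.eqn_zero e
  split_ifs
  · linear_combination h
  · exact h

variable (A)

/-- the involution `z_e ↦ 1/(z_e Y_e)`, `e ∈ E` -/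
noncomputable def Arr.flip (E : Finset (Fin m)) : A.CRing →+* A.CRing :=
  A.lift (A.fpol E) (fpol_eqn E)

variable {A}

theorem flip_mkC (E : Finset (Fin m)) (p : MvPolynomial (Fin n ⊕ (Fin m × Fin (k + 1))) K) :
    A.flip E (A.mkC p) = A.fpol E p :=
  A.lift_mkC _ _ _

theorem flip_cst (E : Finset (Fin m)) (y : K) : A.flip E (A.cst y) = A.cst y := by
  unfold Arr.cst
  rw [flip_mkC, fpol_C]
  rfl

theorem flip_co (E : Finset (Fin m)) (s : Fin n ⊕ (Fin m × Fin (k + 1))) :
    A.flip E (A.co s) = A.fim E s := by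
  unfold Arr.co
  rw [flip_mkC, fpol_X]

/-- `1/(z_e Y_e)` -/
noncomputable def Arr.iz (A : Arr K n m k) (e : Fin m) : A.CRingˣ :=
  (A.unit e 0 * ∏ j : Fin k, A.unit e j.succ ^ (A.w e j + 1))⁻¹

theorem coe_iz (e : Fin m) : (A.iz e : A.CRing) =
    A.mkC (A.phi e) - A.mkC (ss K n e) - A.co (Sum.inr (e, 0)) := by
  have h := A.eqn_zero e
  have h1 : ((A.unit e 0 * ∏ j : Fin k, A.unit e j.succ ^ (A.w e j + 1) : A.CRingˣ) :
      A.CRing) = A.co (Sum.inr (e, 0)) * A.mkC (A.yy e) := by
    rw [Units.val_mul, Units.coe_prod, A.mkC_yy]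
    rfl
  unfold Arr.iz
  rw [Units.inv_eq_of_mul_eq_one_right]
  rw [h1]
  linear_combination -h

theorem map_flip_unit_succ (E : Finset (Fin m)) (e : Fin m) (j : Fin k) :
    Units.map (A.flip E : A.CRing →* A.CRing) (A.unit e j.succ) = A.unit e j.succ := by
  refine Units.ext ?_
  show A.flip E (A.co (Sum.inr (e, j.succ))) = A.co (Sum.inr (e, j.succ))
  rw [flip_co, fim_succ]

theorem map_flip_unit_zero (E : Finset (Fin m)) (e : Fin m) :
    Units.map (A.flip E : A.CRing →* A.CRing) (A.unit e 0) =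
      if e ∈ E then A.iz e else A.unit e 0 := by
  refine Units.ext ?_
  have h1 : ((Units.map (A.flip E : A.CRing →* A.CRing) (A.unit e 0) : A.CRingˣ) : A.CRing) =
      A.flip E (A.co (Sum.inr (e, 0))) := rfl
  rw [h1, flip_co, fim_zero]
  split_ifs
  · rw [coe_iz]
  · rfl

/-- the entries of the symbol, with `1/(z_e Y_e)` in place of `z_e` in the blocks of `T` -/
noncomputable def fent {r : ℕ} (A : Arr K n m k) (D : Fin (r + 1) → Fin m) (T : Finset (Fin (r + 1)))
    (p : Fin ((r + 1) * k + r + 1)) : A.CRingˣ :=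
  open Classical in
  if (pr r k p).2 = 0 ∧ (pr r k p).1 ∈ T then A.iz (D (pr r k p).1) else
    A.unit (D (pr r k p).1) (pr r k p).2

theorem symb_fent {r : ℕ} (D : Fin (r + 1) → Fin m) (T : Finset (Fin (r + 1)))
    (ρ : KQ A.CRing ((r + 1) * k + r + 1) →ₗ[ℚ] ℝ)
    (hρ : ∀ (a : Fin ((r + 1) * k + r + 1) → A.CRingˣ) i j, i ≠ j → a i = a j →
      ρ (symb a) = 0) :
    ρ (symb (fent A D T)) = ((-1 : ℝ) ^ T.card) * ρ (A.sym D) := by
  classical
  induction T using Finset.induction_on with
  | empty =>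
    rw [Finset.card_empty, pow_zero, one_mul]
    unfold Arr.sym
    congr 2
    funext p
    unfold fent
    rw [if_neg (by simp)]
  | insert a T ha ih =>
    set b : Fin ((r + 1) * k + r + 1) → A.CRingˣ := fent A D T with hb
    have hb0 : b (pos a 0) = A.unit (D a) 0 := by
      rw [hb]
      unfold fent
      rw [if_neg (by rw [pr_pos]; exact fun h => ha h.2), pr_pos]
    have hbs : ∀ j : Fin k, b (pos a j.succ) = A.unit (D a) j.succ := by
      intro j
      rw [hb]
      unfold fent
      rw [if_neg (by rw [pr_pos]; exact fun h => Fin.succ_ne_zero j h.1), pr_pos]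
    have e1 : fent A D (insert a T) = Function.update b (pos a 0) (A.iz (D a)) := by
      funext p
      by_cases hp : p = pos a 0
      · subst hp
        rw [Function.update_self]
        unfold fent
        rw [if_pos (by rw [pr_pos]; exact ⟨rfl, Finset.mem_insert_self _ _⟩), pr_pos]
      · rw [Function.update_of_ne hp, hb]
        unfold fent
        have : ((pr r k p).2 = 0 ∧ (pr r k p).1 ∈ insert a T) ↔
            ((pr r k p).2 = 0 ∧ (pr r k p).1 ∈ T) := by
          constructor
          · rintro ⟨h1, h2⟩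
            refine ⟨h1, (Finset.mem_insert.1 h2).resolve_left fun h3 => hp ?_⟩
            rw [← pos_pr p, h1, h3]
          · exact fun h => ⟨h.1, Finset.mem_insert_of_mem h.2⟩
        simp only [this]
    have e2 : ρ (symb (Function.update b (pos a 0) (A.iz (D a)))) = - ρ (symb b) := by
      unfold Arr.iz
      rw [reg_upd_inv, symb_update_mul, ← hb0, Function.update_eq_self, map_add,
        reg_update_prod, Finset.sum_eq_zero, add_zero]
      intro j _
      rw [reg_update_pow, ← hbs, hρ _ (pos a j.succ) (pos a 0), mul_zero]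
      · intro h
        exact Fin.succ_ne_zero j (pos_inj h).2
      · rw [Function.update_self, Function.update_of_ne]
        intro h
        exact Fin.succ_ne_zero j (pos_inj h).2
    rw [e1, e2, ih, Finset.card_insert_of_notMem ha, pow_succ]
    ring

theorem map_flip_sym {r : ℕ} (E : Finset (Fin m)) (D : Fin (r + 1) → Fin m)
    (ρ : KQ A.CRing ((r + 1) * k + r + 1) →ₗ[ℚ] ℝ)
    (hρ : ∀ (a : Fin ((r + 1) * k + r + 1) → A.CRingˣ) i j, i ≠ j → a i = a j →
      ρ (symb a) = 0) :
    ρ (KQ.map ((r + 1) * k + r + 1) (A.flip E) (A.sym D)) =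
      ((-1 : ℝ) ^ (Finset.univ.filter fun a => D a ∈ E).card) * ρ (A.sym D) := by
  rw [← symb_fent D _ ρ hρ]
  unfold Arr.sym
  rw [KQ.map_symb]
  congr 2
  funext p
  unfold fent
  obtain ⟨⟨a, j⟩, rfl⟩ := (pr r k).symm.surjective p
  rw [Equiv.apply_symm_apply]
  refine Fin.cases ?_ (fun j => ?_) j
  · rw [map_flip_unit_zero]
    simp only [Finset.mem_filter, Finset.mem_univ, true_and]
  · rw [map_flip_unit_succ, if_neg (fun h => Fin.succ_ne_zero j h.1)]

end flip

section comp

variable {B B' : Type*} [CommRing B] [CommRing B'] {d : ℕ}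

/-- the composition of a torus with a homomorphism of rings -/
def tcomp (T : Torus B d) (f : B' →+* B) : Torus B' d where
  e θ := (T.e θ).comp f
  smooth h := T.smooth (f h)
  periodic θ i := by rw [T.periodic]

theorem reg_tcomp (T : Torus B d) (f : B' →+* B) (a : Fin (d + 1) → B'ˣ) :
    (tcomp T f).reg (symb a) = T.reg (KQ.map (d + 1) f (symb a)) := by
  rw [KQ.map_symb, Torus.reg_symb, Torus.reg_symb]
  rfl

end comp

section sign

variable {n m : ℕ}

theorem card_filter (C D : Fin (n + 1) → Fin m) (hC : Function.Injective C)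
    (hD : Function.Injective D) (s : Finset (Fin (n + 1))) :
    ((-1 : ℝ)) ^ (Finset.univ.filter fun a => D a ∈ s.image C).card =
      ∏ b ∈ s, (if C b ∈ Set.range D then (-1 : ℝ) else 1) := by
  classical
  rw [Finset.prod_ite, Finset.prod_const, Finset.prod_const_one, mul_one]
  congr 1
  have h1 : (Finset.univ.filter fun a => D a ∈ s.image C).image D =
      (s.filter fun b => C b ∈ Set.range D).image C := by
    ext e
    constructor
    · intro h
      obtain ⟨a, ha, rfl⟩ := Finset.mem_image.1 h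
      obtain ⟨b, hb, hba⟩ := Finset.mem_image.1 (Finset.mem_filter.1 ha).2
      exact Finset.mem_image.2 ⟨b, Finset.mem_filter.2 ⟨hb, ⟨a, hba.symm⟩⟩, hba⟩
    · intro h
      obtain ⟨b, hb, rfl⟩ := Finset.mem_image.1 h
      obtain ⟨hb1, a, ha⟩ := Finset.mem_filter.1 hb
      refine Finset.mem_image.2 ⟨a, Finset.mem_filter.2 ⟨Finset.mem_univ _, ?_⟩, ha⟩
      rw [ha]
      exact Finset.mem_image.2 ⟨b, hb1, rfl⟩
  have h2 := congrArg Finset.card h1
  rwa [Finset.card_image_of_injective _ hD, Finset.card_image_of_injective _ hC] at h2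

theorem sum_sign (C D : Fin (n + 1) → Fin m) (hC : Function.Injective C)
    (hD : Function.Injective D) :
    ∑ s ∈ (Finset.univ : Finset (Fin (n + 1))).powerset, (-1 : ℝ) ^ s.card *
      (-1 : ℝ) ^ (Finset.univ.filter fun a => D a ∈ s.image C).card =
      ∏ b : Fin (n + 1), (if C b ∈ Set.range D then (2 : ℝ) else 0) := by
  classical
  have h1 : ∀ b : Fin (n + 1), (if C b ∈ Set.range D then (2 : ℝ) else 0) =
      1 + (-1) * (if C b ∈ Set.range D then (-1 : ℝ) else 1) := by
    intro b
    split_ifs <;> norm_num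
  simp only [h1]
  rw [Finset.prod_one_add]
  refine Finset.sum_congr rfl fun s _ => ?_
  rw [card_filter C D hC hD, Finset.prod_mul_distrib, Finset.prod_const]

end sign

end Pool.Agent.K7.H1.CF
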