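import Pool.Agent.K7.H1.CF.Tor
set_option autoImplicit false

/-!
The tori of a circuit, and the independence of the regulators.
-/

namespace Pool.Agent.K7.H1.CF

open Pool.Agent.TH826.MK

open Pool.Agent.Y797.HC (one_lt_norm_zeta pairing_circ_pos good_circ)

section data

variable {K : Type*} [Field K] {σ : K →+* ℂ} {n m k : ℕ} {A : Arr K n m k}

/-- the coordinates on the torus by positions -/
noncomputable def cd {r k : ℕ} (θ : Fin ((r + 1) * k + r) → ℝ)
    (p : Fin ((r + 1) * k + r + 1)) : ℂ :=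
  Fin.cases 1 (fun i => circ 1 (θ i)) p

theorem cd_succ {r k : ℕ} (θ : Fin ((r + 1) * k + r) → ℝ) (i : Fin ((r + 1) * k + r)) :
    cd θ i.succ = circ 1 (θ i) := rfl

theorem norm_cd {r k : ℕ} (θ : Fin ((r + 1) * k + r) → ℝ) (p : Fin ((r + 1) * k + r + 1)) :
    ‖cd θ p‖ = 1 := by
  refine Fin.cases ?_ (fun i => ?_) p
  · exact norm_one
  · exact norm_circ zero_le_one _

theorem contDiff_cd {r k : ℕ} (p : Fin ((r + 1) * k + r + 1)) :
    ContDiff ℝ 2 fun θ : Fin ((r + 1) * k + r) → ℝ => cd θ p := by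
  refine Fin.cases ?_ (fun i => ?_) p
  · exact contDiff_const
  · exact (good_circ i).smooth

theorem cd_per {r k : ℕ} (θ : Fin ((r + 1) * k + r) → ℝ) (i : Fin ((r + 1) * k + r))
    (p : Fin ((r + 1) * k + r + 1)) : cd (θ + Pi.single i 1) p = cd θ p := by
  refine Fin.cases rfl (fun j => ?_) p
  rw [cd_succ, cd_succ]
  by_cases hj : j = i
  · subst hj
    rw [Pi.add_apply, Pi.single_eq_same, circ_add_one]
  · rw [Pi.add_apply, Pi.single_eq_of_ne hj, add_zero]

open Classical in
/-- the coordinates of absolute value one of the points of the torus of `C` -/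
noncomputable def cc {r : ℕ} (C : Fin (r + 1) → Fin m) (θ : Fin ((r + 1) * k + r) → ℝ)
    (s : Fin m × Fin (k + 1)) : ℂ :=
  if h : ∃ a, C a = s.1 then cd θ (pos h.choose s.2) else 1

theorem cc_apply {r : ℕ} {C : Fin (r + 1) → Fin m} (hC : Function.Injective C)
    (θ : Fin ((r + 1) * k + r) → ℝ) (a : Fin (r + 1)) (j : Fin (k + 1)) :
    cc C θ (C a, j) = cd θ (pos a j) := by
  have h : ∃ a', C a' = (C a, j).1 := ⟨a, rfl⟩
  unfold cc
  rw [dif_pos h]
  have h1 : h.choose = a := hC h.choose_spec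
  rw [h1]

theorem CD_cc {r : ℕ} (C : Fin (r + 1) → Fin m) : CD (cc (k := k) C) where
  smooth s := by
    unfold cc
    by_cases h : ∃ a, C a = s.1
    · simp only [dif_pos h]
      exact contDiff_cd _
    · simp only [dif_neg h]
      exact contDiff_const
  per θ i := by
    funext s
    unfold cc
    by_cases h : ∃ a, C a = s.1
    · simp only [dif_pos h]
      exact cd_per _ _ _
    · simp only [dif_neg h]
  norm θ s := by
    unfold cc
    by_cases h : ∃ a, C a = s.1
    · simp only [dif_pos h]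
      exact norm_cd _ _
    · simp only [dif_neg h]
      exact norm_one

variable (σ A) in
open Classical in
/-- the coordinates of the points of the torus -/
noncomputable def uu {d : ℕ} (P : Fin n → Fin m) (c : (Fin d → ℝ) → Fin m × Fin (k + 1) → ℂ)
    (t : (Fin d → ℝ) → Fin n → ℂ) (θ : Fin d → ℝ) (s : Fin m × Fin (k + 1)) : ℂ :=
  if s.2 = 0 ∧ ∀ i, P i ≠ s.1 then
    rt (A.yv (c θ) s.1)⁻¹ (A.val σ s.1 (t θ) - sv (c θ) s.1) else c θ s

section uu

variable {d : ℕ} {P : Fin n → Fin m} {c : (Fin d → ℝ) → Fin m × Fin (k + 1) → ℂ}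
  {t : (Fin d → ℝ) → Fin n → ℂ}

theorem uu_succ (θ : Fin d → ℝ) (e : Fin m) (j : Fin k) :
    uu σ A P c t θ (e, j.succ) = c θ (e, j.succ) := by
  unfold uu
  rw [if_neg (fun h => Fin.succ_ne_zero j h.1)]

theorem uu_of_mem (θ : Fin d → ℝ) {e : Fin m} (he : ∃ i, P i = e) (j : Fin (k + 1)) :
    uu σ A P c t θ (e, j) = c θ (e, j) := by
  unfold uu
  rw [if_neg (fun h => by
    obtain ⟨i, hi⟩ := he
    exact h.2 i hi)]

theorem uu_of_not (θ : Fin d → ℝ) {e : Fin m} (he : ∀ i, P i ≠ e) :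
    uu σ A P c t θ (e, 0) = rt (A.yv (c θ) e)⁻¹ (A.val σ e (t θ) - sv (c θ) e) := by
  unfold uu
  rw [if_pos ⟨rfl, he⟩]

theorem yv_uu (θ : Fin d → ℝ) (e : Fin m) : A.yv (uu σ A P c t θ) e = A.yv (c θ) e := by
  unfold Arr.yv
  exact Finset.prod_congr rfl fun j _ => by rw [uu_succ]

theorem sv_uu (θ : Fin d → ℝ) (e : Fin m) : sv (uu σ A P c t θ) e = sv (c θ) e := by
  unfold sv
  exact Finset.sum_congr rfl fun j _ => by rw [uu_succ]

theorem norm_inv_yv (hc : CD c) (θ : Fin d → ℝ) (e : Fin m) : ‖(A.yv (c θ) e)⁻¹‖ = 1 := by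
  rw [norm_inv, norm_yv (hc.norm θ), inv_one]

theorem two_lt (H : PD σ A P c t) (hc : CD c) (θ : Fin d → ℝ) {e : Fin m}
    (he : ∀ i, P i ≠ e) : 2 < ‖A.val σ e (t θ) - sv (c θ) e‖ := by
  have h1 := H.far θ e he
  have h2 := norm_sv_le (hc.norm θ) e
  have h3 := norm_sub_norm_le (A.val σ e (t θ)) (sv (c θ) e)
  linarith

theorem uu_isPt (H : PD σ A P c t) (hc : CD c) (θ : Fin d → ℝ) :
    A.IsPt σ (t θ) (uu σ A P c t θ) := by
  intro e
  have hY := hc.yv_ne (A := A) θ e
  rw [yv_uu, sv_uu]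
  by_cases he : ∃ i, P i = e
  · rw [uu_of_mem θ he]
    obtain ⟨i, rfl⟩ := he
    rw [H.val]
    have h := hc.ne θ (P i, 0)
    unfold Arr.pv
    field_simp
    ring
  · push Not at he
    rw [uu_of_not θ he]
    have h := rt_eq (norm_inv_yv (A := A) hc θ e) (two_lt H hc θ he)
    have h2 : A.yv (c θ) e * (A.yv (c θ) e)⁻¹ = 1 := mul_inv_cancel₀ hY
    linear_combination (A.yv (c θ) e) * h - h2

theorem uu_ne (H : PD σ A P c t) (hc : CD c) (θ : Fin d → ℝ) (s : Fin m × Fin (k + 1)) :
    uu σ A P c t θ s ≠ 0 := by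
  obtain ⟨e, j⟩ := s
  by_cases he : ∃ i, P i = e
  · rw [uu_of_mem θ he]
    exact hc.ne θ _
  · push Not at he
    refine Fin.cases ?_ (fun j => ?_) j
    · rw [uu_of_not θ he, ← norm_pos_iff]
      exact one_pos.trans (one_lt_rt (norm_inv_yv (A := A) hc θ e) (two_lt H hc θ he))
    · rw [uu_succ]
      exact hc.ne θ _

theorem contDiff_root (H : PD σ A P c t) (hc : CD c) {e : Fin m} (he : ∀ i, P i ≠ e) :
    ContDiff ℝ 2 fun θ => rt (A.yv (c θ) e)⁻¹ (A.val σ e (t θ) - sv (c θ) e) :=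
  contDiff_rt ((hc.contDiff_yv e).inv fun θ => hc.yv_ne θ e)
    ((contDiff_val H.smooth e).sub (hc.contDiff_sv e)) (fun θ => norm_inv_yv (A := A) hc θ e)
    fun θ => two_lt H hc θ he

theorem contDiff_uu (H : PD σ A P c t) (hc : CD c) (s : Fin m × Fin (k + 1)) :
    ContDiff ℝ 2 fun θ => uu σ A P c t θ s := by
  obtain ⟨e, j⟩ := s
  by_cases he : ∃ i, P i = e
  · simp only [uu_of_mem _ he]
    exact hc.smooth _
  · push Not at he
    refine Fin.cases ?_ (fun j => ?_) j
    · simp only [uu_of_not _ he]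
      exact contDiff_root H hc he
    · simp only [uu_succ]
      exact hc.smooth _

theorem uu_per (H : PD σ A P c t) (hc : CD c) (θ : Fin d → ℝ) (i : Fin d) :
    uu σ A P c t (θ + Pi.single i 1) = uu σ A P c t θ := by
  funext s
  unfold uu
  rw [hc.per, H.per]

/-- the torus -/
noncomputable def PD.tor (H : PD σ A P c t) (hc : CD c) : Torus A.CRing d :=
  Arr.mkT (uu_isPt H hc) H.smooth (contDiff_uu H hc) H.per (uu_per H hc)

theorem PD.tor_co (H : PD σ A P c t) (hc : CD c) (θ : Fin d → ℝ)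
    (s : Fin n ⊕ (Fin m × Fin (k + 1))) :
    (H.tor hc).e θ (A.co s) = Sum.elim (t θ) (uu σ A P c t θ) s :=
  (uu_isPt H hc θ).ev_co s

theorem PD.tor_cst (H : PD σ A P c t) (hc : CD c) (θ : Fin d → ℝ) (y : K) :
    (H.tor hc).e θ (A.cst y) = σ y :=
  (uu_isPt H hc θ).ev_cst y

theorem PD.tor_mk (H : PD σ A P c t) (hc : CD c) (θ : Fin d → ℝ)
    (p : MvPolynomial (Fin n ⊕ (Fin m × Fin (k + 1))) K) :
    (H.tor hc).e θ (A.mkC p) = MvPolynomial.eval₂Hom σ (Sum.elim (t θ) (uu σ A P c t θ)) p :=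
  (uu_isPt H hc θ).ev_mk p

theorem PD.tor_fn (H : PD σ A P c t) (hc : CD c) (e : Fin m) (j : Fin (k + 1)) :
    (H.tor hc).fn (A.unit e j : A.CRing) = fun θ => uu σ A P c t θ (e, j) := by
  funext θ
  exact H.tor_co hc θ (Sum.inr (e, j))

theorem two_root (H : PD σ A P c t) (hc : CD c) (θ : Fin d → ℝ) {e : Fin m}
    (he : ∀ i, P i ≠ e) :
    2 * uu σ A P c t θ (e, 0) + (sv (uu σ A P c t θ) e - A.val σ e (t θ)) ≠ 0 := by
  rw [sv_uu, uu_of_not θ he]
  intro h
  set z := rt (A.yv (c θ) e)⁻¹ (A.val σ e (t θ) - sv (c θ) e) with hz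
  have h1 := rt_eq (norm_inv_yv (A := A) hc θ e) (two_lt H hc θ he)
  rw [← hz] at h1
  have h2 : z ^ 2 = (A.yv (c θ) e)⁻¹ := by linear_combination h1 + h * z - 2 * h1
  have h3 := congrArg norm h2
  rw [norm_pow, norm_inv_yv (A := A) hc θ e] at h3
  have h4 : ‖z‖ = 1 := (pow_eq_one_iff_of_nonneg (norm_nonneg _) two_ne_zero).1 h3
  have h5 := one_lt_rt (norm_inv_yv (A := A) hc θ e) (two_lt H hc θ he)
  rw [← hz, h4] at h5
  exact lt_irrefl _ h5

/-- the flipped points -/
noncomputable def fu (E : Finset (Fin m)) (A : Arr K n m k) (σ : K →+* ℂ) (t : Fin n → ℂ)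
    (u : Fin m × Fin (k + 1) → ℂ) (s : Fin m × Fin (k + 1)) : ℂ :=
  open Classical in
  if s.2 = 0 ∧ s.1 ∈ E then A.val σ s.1 t - sv u s.1 - u s else u s

theorem good_tor (hP : Function.Injective P)
    (hdetP : (Matrix.of fun i j : Fin n => A.l (P i) j).det ≠ 0) (H : PD σ A P c t)
    (hc : CD c) (E : Finset (Fin m)) : A.Good σ (tcomp (H.tor hc) (A.flip E)) := by
  classical
  refine ⟨fun θ y => ?_, fun θ => ?_⟩
  · show (H.tor hc).e θ (A.flip E (A.cst y)) = σ y
    rw [flip_cst, H.tor_cst]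
  · set u := uu σ A P c t θ with hu
    have e1 : (fun s => (tcomp (H.tor hc) (A.flip E)).e θ (A.co s)) =
        Sum.elim (t θ) (fu E A σ (t θ) u) := by
      funext s
      show (H.tor hc).e θ (A.flip E (A.co s)) = _
      rw [flip_co]
      rcases s with i | ⟨e, j⟩
      · rw [fim_inl, H.tor_co]
        rfl
      · rw [Sum.elim_inr]
        unfold fu
        refine Fin.cases ?_ (fun j => ?_) j
        · rw [fim_zero]
          by_cases he : e ∈ E
          · rw [if_pos he, if_pos ⟨rfl, he⟩, map_sub, map_sub, H.tor_mk, H.tor_mk, H.tor_co,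
              A.eval_phi, eval_ss]
            rfl
          · rw [if_neg he, if_neg (fun h => he h.2), H.tor_co]
            rfl
        · rw [fim_succ, if_neg (fun h => Fin.succ_ne_zero j h.1), H.tor_co]
          rfl
    rw [e1]
    have hpt := uu_isPt H hc θ
    rw [← hu] at hpt
    have hne := uu_ne H hc θ
    rw [← hu] at hne
    have hY : ∀ e, A.yv u e ≠ 0 := by
      intro e
      rw [hu, yv_uu]
      exact hc.yv_ne θ e
    have hfs : ∀ e (j : Fin k), fu E A σ (t θ) u (e, j.succ) = u (e, j.succ) := by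
      intro e j
      unfold fu
      rw [if_neg (fun h => Fin.succ_ne_zero j h.1)]
    have hsv : ∀ e, sv (fu E A σ (t θ) u) e = sv u e := by
      intro e
      unfold sv
      exact Finset.sum_congr rfl fun j _ => hfs e j
    refine smoothAt_of hP hdetP (fun s => ?_) (H.der θ) fun f hf => ?_
    · unfold fu
      split_ifs with h
      · intro h1
        have h2 := hpt s.1
        have h3 : u (s.1, 0) = u s := by rw [← h.1]
        rw [h3] at h2
        have h4 : (1 : ℂ) = 0 := by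
          linear_combination h2 + A.yv u s.1 * u s * h1
        exact one_ne_zero h4
      · exact hne s
    · rw [hsv]
      have h1 := two_root H hc θ hf
      rw [← hu] at h1
      unfold fu
      by_cases he : f ∈ E
      · rw [if_pos ⟨rfl, he⟩]
        intro h2
        refine h1 ?_
        linear_combination -h2
      · rw [if_neg (fun h => he h.2)]
        exact h1

end uu

theorem reg_self {d : ℕ} {R : Type*} [CommRing R] (T : Torus R d) (a : Fin (d + 1) → Rˣ)
    (i j : Fin (d + 1)) (hij : i ≠ j) (h : a i = a j) : T.reg (symb a) = 0 := by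
  rw [Torus.reg_symb]
  unfold Torus.pair pairing
  have h1 : ∀ y, integrand (fun l => T.fn (a l : R)) y = 0 := by
    intro y
    unfold integrand
    rw [Matrix.det_zero_of_row_eq hij, mul_zero, Complex.zero_re]
    show grow (T.fn (a i : R)) y = grow (T.fn (a j : R)) y
    rw [h]
  simp only [h1]
  simp

variable {r : ℕ} {C : Fin (r + 1) → Fin m} {P : Fin n → Fin m} {t : (Fin ((r + 1) * k + r) → ℝ) → Fin n → ℂ}

theorem reg_pos (hC : Function.Injective C) (H : PD σ A P (cc C) t)
    (h0 : ∀ i, P i ≠ C 0) (hs : ∀ b : Fin r, ∃ i, P i = C b.succ) :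
    0 < (H.tor (CD_cc C)).reg (A.sym C) := by
  have hc := CD_cc (k := k) C
  unfold Arr.sym
  rw [Torus.reg_symb]
  unfold Torus.pair
  have e : (fun l => (H.tor (CD_cc C)).fn
      (A.unit (C (pr r k l).1) (pr r k l).2 : A.CRing)) =
      Fin.cons (fun θ => rt (A.yv (cc C θ) (C 0))⁻¹ (A.val σ (C 0) (t θ) - sv (cc C θ) (C 0)))
        fun i θ => circ 1 (θ i) := by
    funext l
    rw [H.tor_fn]
    refine Fin.cases ?_ (fun i => ?_) l
    · rw [pr_zero, Fin.cons_zero]
      funext θ
      exact uu_of_not θ h0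
    · rw [Fin.cons_succ]
      funext θ
      obtain ⟨⟨a, j⟩, haj⟩ : ∃ x, pr r k i.succ = x := ⟨_, rfl⟩
      have hpos : pos a j = i.succ := by
        unfold pos
        rw [← haj, Equiv.symm_apply_apply]
      rw [haj]
      have h1 : uu σ A P (cc C) t θ (C a, j) = cc C θ (C a, j) := by
        unfold uu
        rw [if_neg]
        rintro ⟨hj, hcon⟩
        rcases Fin.eq_zero_or_eq_succ a with rfl | ⟨a', rfl⟩
        · have h2 : pos (0 : Fin (r + 1)) (0 : Fin (k + 1)) = 0 := by
            unfold pos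
            rw [← pr_zero r k, Equiv.symm_apply_apply]
          have h3 : j = 0 := hj
          rw [h3, h2] at hpos
          exact Fin.succ_ne_zero i hpos.symm
        · obtain ⟨i', hi'⟩ := hs a'
          exact hcon i' hi'
      show uu σ A P (cc C) t θ (C a, j) = _
      rw [h1, cc_apply hC, hpos, cd_succ]
  rw [e]
  refine pairing_circ_pos ⟨contDiff_root H hc h0, fun θ => ?_⟩ fun θ => ?_
  · rw [← norm_pos_iff]
    exact one_pos.trans (one_lt_rt (norm_inv_yv (A := A) hc θ _) (two_lt H hc θ h0))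
  · exact one_lt_rt (norm_inv_yv (A := A) hc θ _) (two_lt H hc θ h0)

/-- The independence of the regulators of the symbols of different circuits. -/
theorem independent {N : ℕ} (D : Fin N → Fin (r + 1) → Fin m)
    (hD : ∀ k, Function.Injective (D k))
    (hdist : ∀ k k', Set.range (D k) = Set.range (D k') → k = k')
    (hB : ∀ i, ∃ P : Fin n → Fin m, A.Box σ P ∧ (∀ j, P j ≠ D i 0) ∧
      ∀ b : Fin r, ∃ j, P j = D i b.succ) : A.Indep σ D := by
  classical
  intro a ha
  funext i0
  set C := D i0 with hCdef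
  have hC := hD i0
  obtain ⟨P, hP, hP0, hPs⟩ := hB i0
  obtain ⟨t, H⟩ := exists_PD hP (CD_cc (k := k) C)
  set T := H.tor (CD_cc C) with hT
  have h1 : ∀ s : Finset (Fin (r + 1)),
      ∑ i, a i * ((-1 : ℝ) ^ (Finset.univ.filter fun b => D i b ∈ s.image C).card *
        T.reg (A.sym (D i))) = 0 := by
    intro s
    have h2 := ha _ (good_tor hP.inj hP.det H (CD_cc C) (s.image C))
    rw [← h2]
    refine Finset.sum_congr rfl fun i _ => ?_
    congr 1
    have h3 : (tcomp T (A.flip (s.image C))).reg (A.sym (D i)) =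
        T.reg (KQ.map _ (A.flip (s.image C)) (A.sym (D i))) := by
      unfold Arr.sym
      exact reg_tcomp T _ _
    rw [h3, map_flip_sym _ _ T.reg fun a i j hij h => reg_self T a i j hij h]
  have h2 : ∑ s ∈ (Finset.univ : Finset (Fin (r + 1))).powerset, (-1 : ℝ) ^ s.card *
      ∑ i, a i * ((-1 : ℝ) ^ (Finset.univ.filter fun b => D i b ∈ s.image C).card *
        T.reg (A.sym (D i))) = 0 :=
    Finset.sum_eq_zero fun s _ => by rw [h1, mul_zero]
  simp only [Finset.mul_sum] at h2
  rw [Finset.sum_comm] at h2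
  have h3 : ∀ i, ∑ s ∈ (Finset.univ : Finset (Fin (r + 1))).powerset, (-1 : ℝ) ^ s.card *
      (a i * ((-1 : ℝ) ^ (Finset.univ.filter fun b => D i b ∈ s.image C).card *
        T.reg (A.sym (D i)))) =
      (∏ b : Fin (r + 1), (if C b ∈ Set.range (D i) then (2 : ℝ) else 0)) *
        (a i * T.reg (A.sym (D i))) := by
    intro i
    rw [← sum_sign C (D i) hC (hD i), Finset.sum_mul]
    exact Finset.sum_congr rfl fun s _ => by ring
  simp only [h3] at h2
  rw [Finset.sum_eq_single i0] at h2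
  · have h4 : (∏ b : Fin (r + 1), (if C b ∈ Set.range (D i0) then (2 : ℝ) else 0)) ≠ 0 := by
      refine Finset.prod_ne_zero_iff.2 fun b _ => ?_
      rw [if_pos ⟨b, rfl⟩]
      norm_num
    have h5 := (mul_eq_zero.1 h2).resolve_left h4
    exact (mul_eq_zero.1 h5).resolve_right (reg_pos hC H hP0 hPs).ne'
  · intro i _ hi
    have hex : ∃ b, C b ∉ Set.range (D i) := by
      by_contra hcon
      push Not at hcon
      refine hi (hdist i i0 ?_)
      symm
      refine Set.eq_of_subset_of_ncard_le ?_ ?_ (Set.toFinite _)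
      · rintro _ ⟨b, rfl⟩
        exact hcon b
      · rw [← Set.image_univ, ← Set.image_univ, Set.ncard_image_of_injective _ (hD i),
          Set.ncard_image_of_injective _ (hD i0)]
    obtain ⟨b, hb⟩ := hex
    rw [Finset.prod_eq_zero (Finset.mem_univ b) (if_neg hb), zero_mul]
  · exact fun h => absurd (Finset.mem_univ _) h

end data

end Pool.Agent.K7.H1.CF
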