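import Pool.Agent.K7.H1.CF.Ev
import Pool.Agent.K7.H1.CF.Flip
import Pool.Agent.Y797.HC.Tor
set_option autoImplicit false

/-!
The tori of a circuit, and the regulators of the symbols on them.
-/

namespace Pool.Agent.K7.H1.CF

open Pool.Agent.TH826.MK

open Pool.Agent.TH826.UH (Sepd sepd_dist)

open Pool.Agent.Y797.HC (one_lt_norm_zeta pairing_circ_pos)

section root

/-- the root of `z² - φ z + c` of larger absolute value -/
noncomputable def rt (c φ : ℂ) : ℂ :=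
  φ * ((1 + Complex.exp (Complex.log (1 - 4 * c / φ ^ 2) / 2)) / 2)

theorem rt_eq_zeta {c φ s : ℂ} (hs : s ^ 2 = c) (hs0 : s ≠ 0) : rt c φ = s * zeta (φ / s) := by
  unfold rt zeta TH826.MK.hs TH826.MK.sq
  have e : 4 / (φ / s) ^ 2 = 4 * c / φ ^ 2 := by
    rw [div_pow, hs, div_div_eq_mul_div]
  rw [e, ← mul_assoc, mul_div_cancel₀ _ hs0]

theorem exists_sqrt {c : ℂ} (hc : ‖c‖ = 1) : ∃ s : ℂ, s ^ 2 = c ∧ ‖s‖ = 1 := by
  obtain ⟨s, hs⟩ := IsAlgClosed.exists_pow_nat_eq c (n := 2) (by norm_num)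
  refine ⟨s, hs, ?_⟩
  have h := congrArg norm hs
  rw [norm_pow, hc] at h
  exact (pow_eq_one_iff_of_nonneg (norm_nonneg _) two_ne_zero).1 h

theorem rt_eq {c φ : ℂ} (hc : ‖c‖ = 1) (hφ : 2 < ‖φ‖) :
    rt c φ ^ 2 - φ * rt c φ + c = 0 := by
  obtain ⟨s, hs, hs1⟩ := exists_sqrt hc
  have hs0 : s ≠ 0 := by
    rintro rfl
    rw [norm_zero] at hs1
    exact zero_ne_one hs1
  have hn : 2 < ‖φ / s‖ := by rwa [norm_div, hs1, div_one]
  have h := zeta_eq hn
  rw [rt_eq_zeta hs hs0, ← hs]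
  have e : φ = s * (φ / s) := by field_simp
  set w := φ / s with hw
  rw [e]
  linear_combination s ^ 2 * h

theorem one_lt_rt {c φ : ℂ} (hc : ‖c‖ = 1) (hφ : 2 < ‖φ‖) : 1 < ‖rt c φ‖ := by
  obtain ⟨s, hs, hs1⟩ := exists_sqrt hc
  have hs0 : s ≠ 0 := by
    rintro rfl
    rw [norm_zero] at hs1
    exact zero_ne_one hs1
  have hn : 2 < ‖φ / s‖ := by rwa [norm_div, hs1, div_one]
  rw [rt_eq_zeta hs hs0, norm_mul, hs1, one_mul]
  exact one_lt_norm_zeta hn

theorem contDiff_rt {d : ℕ} {c φ : (Fin d → ℝ) → ℂ} (hc : ContDiff ℝ 2 c)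
    (hφ : ContDiff ℝ 2 φ) (h1 : ∀ θ, ‖c θ‖ = 1) (h2 : ∀ θ, 2 < ‖φ θ‖) :
    ContDiff ℝ 2 fun θ => rt (c θ) (φ θ) := by
  have h0 : ∀ θ, φ θ ^ 2 ≠ 0 := by
    intro θ h
    have h3 := h2 θ
    rw [pow_eq_zero_iff two_ne_zero] at h
    rw [h, norm_zero] at h3
    linarith
  have hs : ∀ θ, 1 - 4 * c θ / φ θ ^ 2 ∈ Complex.slitPlane := by
    intro θ
    rw [sub_eq_add_neg]
    refine Complex.mem_slitPlane_of_norm_lt_one ?_
    rw [norm_neg, norm_div, norm_mul, norm_pow, h1 θ, Complex.norm_ofNat, mul_one,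
      div_lt_one (by have := h2 θ; positivity)]
    nlinarith [h2 θ]
  unfold rt
  have h4 : ContDiff ℝ 2 fun θ => 1 - 4 * c θ / φ θ ^ 2 := by
    simp only [div_eq_mul_inv]
    exact contDiff_const.sub ((contDiff_const.mul hc).mul ((hφ.pow 2).inv h0))
  have h5 : ContDiff ℝ 2 fun θ => Complex.log (1 - 4 * c θ / φ θ ^ 2) := by
    rw [contDiff_iff_contDiffAt]
    intro θ
    exact ((Complex.contDiffAt_log (hs θ)).restrict_scalars ℝ).comp θ h4.contDiffAt
  exact hφ.mul ((contDiff_const.add (h5.div_const 2).cexp).div_const 2)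

end root

section branch

theorem exists_branch (k : ℕ) {F : Polynomial ℂ} {g : ℕ} {b : Fin (g + 1) → ℂ}
    (hF : F = ∏ j, (Polynomial.X - Polynomial.C (b j)))
    (hsep : ∀ i j, i ≠ j → 2 * (k : ℝ) + 5 ≤ ‖b i - b j‖) :
    ∃ Y : ℂ → ℂ, ∀ w, ‖w‖ ≤ (k : ℝ) + 2 → ContDiffAt ℂ 2 Y w ∧ F.eval (Y w) = w ∧
      ‖Y w - b 0‖ < (k : ℝ) + 5 / 2 ∧ (Polynomial.derivative F).eval (Y w) ≠ 0 := by
  have hk : (0 : ℝ) ≤ k := Nat.cast_nonneg k
  have hkc : ((k : ℂ) + 2) ≠ 0 := by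
    have : ((k : ℂ) + 2) = ((k + 2 : ℕ) : ℂ) := by push_cast; ring
    rw [this]
    exact Nat.cast_ne_zero.2 (by omega)
  set c : ℂ := 2 / ((k : ℂ) + 2) with hc
  have hc0 : c ≠ 0 := div_ne_zero two_ne_zero hkc
  have hnk : ‖((k : ℂ) + 2)‖ = (k : ℝ) + 2 := by
    have : ((k : ℂ) + 2) = ((k + 2 : ℕ) : ℂ) := by push_cast; ring
    rw [this, Complex.norm_natCast]
    push_cast
    ring
  have hnc : ‖c‖ = 2 / ((k : ℝ) + 2) := by
    rw [hc, norm_div, Complex.norm_ofNat, hnk]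
  have hF' : Polynomial.C c * F = Polynomial.C 0 + Polynomial.C c *
      ∏ j, (Polynomial.X - Polynomial.C (b j)) := by
    rw [Polynomial.C_0, zero_add, hF]
  have hpow : (2 + ‖(0 : ℂ)‖) * 2 ^ (g + 1) < ‖c‖ * (2 * (k : ℝ) + 5) ^ (g + 1) := by
    rw [norm_zero, add_zero, hnc, div_mul_eq_mul_div, lt_div_iff₀ (by linarith), pow_succ,
      pow_succ]
    have h1 : ((2 : ℝ)) ^ g ≤ (2 * (k : ℝ) + 5) ^ g :=
      pow_le_pow_left₀ (by norm_num) (by linarith) _
    have h2 : (0 : ℝ) < 2 ^ g := by positivity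
    nlinarith
  obtain ⟨η, H⟩ := sepd_dist (D := 2 * (k : ℝ) + 5) hc0 hF' (by linarith) hsep (by simp) hpow
  obtain ⟨x, han, hdisc, hprod, hder⟩ := H.exists_branches
  have hub : ∀ w : ℂ, ‖w‖ ≤ (k : ℝ) + 2 → c * w ∈ Metric.ball (0 : ℂ) (2 + η) := by
    intro w hw
    rw [mem_ball_zero_iff, norm_mul, hnc]
    have h1 : 2 / ((k : ℝ) + 2) * ‖w‖ ≤ 2 := by
      rw [div_mul_eq_mul_div, div_le_iff₀ (by linarith)]
      linarith
    linarith [H.eta]
  refine ⟨fun w => x 0 (c * w), fun w hw => ⟨?_, ?_, ?_, ?_⟩⟩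
  · exact ContDiffAt.comp w (han 0 _ (hub w hw)).contDiffAt
      (contDiffAt_const.mul contDiffAt_id)
  · have h1 := congrArg (fun p => p.eval (x 0 (c * w))) (hprod _ (hub w hw))
    simp only [Polynomial.eval_sub, Polynomial.eval_C, Polynomial.eval_mul,
      Polynomial.eval_prod, Polynomial.eval_X] at h1
    rw [Finset.prod_eq_zero (Finset.mem_univ 0) (by simp), mul_zero] at h1
    exact mul_left_cancel₀ hc0 (sub_eq_zero.1 h1)
  · have h1 := hdisc 0 _ (hub w hw)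
    linarith
  · have h1 := hder 0 _ (hub w hw)
    rw [Polynomial.derivative_mul, Polynomial.derivative_C, zero_mul, zero_add,
      Polynomial.eval_mul] at h1
    exact right_ne_zero_of_mul h1

end branch

section points

variable {K : Type*} [Field K] {σ : K →+* ℂ} {n m k : ℕ} {A : Arr K n m k}

/-- the value `z_e + S_e + 1/(z_e Y_e)` -/
noncomputable def Arr.pv (A : Arr K n m k) (c : Fin m × Fin (k + 1) → ℂ) (e : Fin m) : ℂ :=
  c (e, 0) + sv c e + (c (e, 0) * A.yv c e)⁻¹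

theorem norm_sv_le {c : Fin m × Fin (k + 1) → ℂ} (hc : ∀ s, ‖c s‖ = 1) (e : Fin m) :
    ‖sv c e‖ ≤ k := by
  unfold sv
  refine (norm_sum_le _ _).trans ?_
  simp only [hc]
  simp

theorem norm_yv {c : Fin m × Fin (k + 1) → ℂ} (hc : ∀ s, ‖c s‖ = 1) (e : Fin m) :
    ‖A.yv c e‖ = 1 := by
  unfold Arr.yv
  rw [norm_prod]
  exact Finset.prod_eq_one fun j _ => by rw [norm_pow, hc, one_pow]

theorem norm_pv_le {c : Fin m × Fin (k + 1) → ℂ} (hc : ∀ s, ‖c s‖ = 1) (e : Fin m) :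
    ‖A.pv c e‖ ≤ (k : ℝ) + 2 := by
  unfold Arr.pv
  refine (norm_add_le _ _).trans ?_
  have h1 := norm_add_le (c (e, 0)) (sv c e)
  have h2 := norm_sv_le hc e
  rw [hc] at h1
  rw [norm_inv, norm_mul, hc, norm_yv hc, mul_one, inv_one]
  linarith

/-- the points over the product of the discs -/
structure PD (σ : K →+* ℂ) (A : Arr K n m k) (P : Fin n → Fin m) {d : ℕ}
    (c : (Fin d → ℝ) → Fin m × Fin (k + 1) → ℂ) (t : (Fin d → ℝ) → Fin n → ℂ) : Prop where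
  smooth : ∀ i, ContDiff ℝ 2 fun θ => t θ i
  per : ∀ θ i, t (θ + Pi.single i 1) = t θ
  val : ∀ θ i, A.val σ (P i) (t θ) = A.pv (c θ) (P i)
  der : ∀ θ i, (Polynomial.derivative (A.F (P i))).eval₂ σ (A.lin σ (P i) (t θ)) ≠ 0
  far : ∀ θ f, (∀ i, P i ≠ f) → (k : ℝ) + 2 < ‖A.val σ f (t θ)‖

/-- the coordinates of absolute value one -/
structure CD {d : ℕ} (c : (Fin d → ℝ) → Fin m × Fin (k + 1) → ℂ) : Prop where
  smooth : ∀ s, ContDiff ℝ 2 fun θ => c θ s
  per : ∀ θ i, c (θ + Pi.single i 1) = c θ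
  norm : ∀ θ s, ‖c θ s‖ = 1

theorem CD.ne {d : ℕ} {c : (Fin d → ℝ) → Fin m × Fin (k + 1) → ℂ} (H : CD c)
    (θ : Fin d → ℝ) (s : Fin m × Fin (k + 1)) : c θ s ≠ 0 := by
  rw [← norm_pos_iff, H.norm]
  exact one_pos

theorem CD.contDiff_yv {d : ℕ} {c : (Fin d → ℝ) → Fin m × Fin (k + 1) → ℂ} (H : CD c)
    (e : Fin m) : ContDiff ℝ 2 fun θ => A.yv (c θ) e := by
  unfold Arr.yv
  exact contDiff_prod fun j _ => (H.smooth _).pow _

theorem CD.contDiff_sv {d : ℕ} {c : (Fin d → ℝ) → Fin m × Fin (k + 1) → ℂ} (H : CD c)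
    (e : Fin m) : ContDiff ℝ 2 fun θ => sv (c θ) e := by
  unfold sv
  exact ContDiff.sum fun j _ => H.smooth _

theorem CD.yv_ne {d : ℕ} {c : (Fin d → ℝ) → Fin m × Fin (k + 1) → ℂ} (H : CD c)
    (θ : Fin d → ℝ) (e : Fin m) : A.yv (c θ) e ≠ 0 := by
  rw [← norm_pos_iff, norm_yv (H.norm θ)]
  exact one_pos

theorem CD.contDiff_pv {d : ℕ} {c : (Fin d → ℝ) → Fin m × Fin (k + 1) → ℂ} (H : CD c)
    (e : Fin m) : ContDiff ℝ 2 fun θ => A.pv (c θ) e := by
  unfold Arr.pv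
  exact ((H.smooth _).add (H.contDiff_sv e)).add
    (((H.smooth _).mul (H.contDiff_yv e)).inv fun θ => mul_ne_zero (H.ne θ _) (H.yv_ne θ e))

theorem exists_PD {P : Fin n → Fin m} (hB : A.Box σ P) {d : ℕ}
    {c : (Fin d → ℝ) → Fin m × Fin (k + 1) → ℂ} (hc : CD c) : ∃ t, PD σ A P c t := by
  obtain ⟨g, b, hF, hsep, hfar⟩ := hB.sep
  have hY := fun i : Fin n => exists_branch k (hF i) (hsep i)
  choose Y hY using hY
  have hnorm : ∀ θ i, ‖A.pv (c θ) (P i)‖ ≤ (k : ℝ) + 2 := fun θ i => norm_pv_le (hc.norm θ) _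
  set M : Matrix (Fin n) (Fin n) ℂ := Matrix.of fun i k => σ (A.l (P i) k) with hM
  have hdet : IsUnit M.det := by
    have e : M = (Matrix.of fun i k : Fin n => A.l (P i) k).map σ := rfl
    have e2 : M.det = σ (Matrix.of fun i k : Fin n => A.l (P i) k).det := by
      rw [e, RingHom.map_det]
      rfl
    rw [e2]
    exact IsUnit.mk0 _ ((map_ne_zero σ).2 hB.det)
  set X : (Fin d → ℝ) → Fin n → ℂ := fun θ i => Y i (A.pv (c θ) (P i)) with hX
  have hlin : ∀ θ (i : Fin n), A.lin σ (P i) (M⁻¹.mulVec (X θ)) = Y i (A.pv (c θ) (P i)) := by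
    intro θ i
    have e : A.lin σ (P i) (M⁻¹.mulVec (X θ)) = (M.mulVec (M⁻¹.mulVec (X θ))) i := rfl
    rw [e, Matrix.mulVec_mulVec, Matrix.mul_nonsing_inv _ hdet, Matrix.one_mulVec]
  refine ⟨fun θ => M⁻¹.mulVec (X θ), fun i => ?_, fun θ i => ?_, fun θ i => ?_,
    fun θ i => ?_, fun θ f hf => ?_⟩
  · have e : (fun θ => M⁻¹.mulVec (X θ) i) = fun θ => ∑ k, M⁻¹ i k * Y k (A.pv (c θ) (P k)) := rfl
    rw [e]
    refine ContDiff.sum fun k _ => contDiff_const.mul ?_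
    rw [contDiff_iff_contDiffAt]
    intro θ
    exact ((hY k _ (hnorm θ k)).1.restrict_scalars ℝ).comp θ (hc.contDiff_pv (P k)).contDiffAt
  · congr 1
    funext j
    simp only [hX, hc.per]
  · have h7 := (hY i _ (hnorm θ i)).2.1
    rw [Polynomial.eval_map] at h7
    unfold Arr.val
    rw [hlin, h7]
  · have h7 := (hY i _ (hnorm θ i)).2.2.2
    rw [Polynomial.derivative_map, Polynomial.eval_map] at h7
    rw [hlin]
    exact h7
  · refine hfar _ (fun i => ?_) f hf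
    rw [hlin]
    exact (hY i _ (hnorm θ i)).2.2.1

theorem contDiff_val {d : ℕ} {t : (Fin d → ℝ) → Fin n → ℂ}
    (ht : ∀ i, ContDiff ℝ 2 fun θ => t θ i) (f : Fin m) :
    ContDiff ℝ 2 fun θ => A.val σ f (t θ) := by
  have h2 : ContDiff ℝ 2 fun θ => A.lin σ f (t θ) := by
    unfold Arr.lin
    exact ContDiff.sum fun i _ => contDiff_const.mul (ht i)
  unfold Arr.val
  simp only [Polynomial.eval₂_eq_sum_range]
  exact ContDiff.sum fun i _ => contDiff_const.mul (h2.pow i)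

/-- The Jacobian criterion. -/
theorem smoothAt_of {P : Fin n → Fin m} (hP : Function.Injective P)
    (hdetP : (Matrix.of fun i j : Fin n => A.l (P i) j).det ≠ 0) {t : Fin n → ℂ}
    {u : Fin m × Fin (k + 1) → ℂ} (hu : ∀ s, u s ≠ 0)
    (hder : ∀ i, (Polynomial.derivative (A.F (P i))).eval₂ σ (A.lin σ (P i) t) ≠ 0)
    (hout : ∀ f, (∀ i, P i ≠ f) → 2 * u (f, 0) + (sv u f - A.val σ f t) ≠ 0) :
    A.SmoothAt σ (Sum.elim t u) := by
  have hY : ∀ e, A.yv u e ≠ 0 := by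
    intro e
    unfold Arr.yv
    exact Finset.prod_ne_zero_iff.2 fun j _ => pow_ne_zero _ (hu _)
  unfold Arr.SmoothAt
  rw [Fintype.linearIndependent_iff]
  intro a ha
  have hinr : ∀ f, a f * (A.yv u f * (2 * u (f, 0) + (sv u f - A.val σ f t))) = 0 := by
    intro f
    have h1 := congrFun ha (Sum.inr (f, 0))
    simp only [Finset.sum_apply, Pi.smul_apply, smul_eq_mul, Pi.zero_apply] at h1
    rw [Finset.sum_eq_single f] at h1
    · rwa [A.pderiv_inr, if_pos rfl] at h1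
    · intro e _ he
      rw [A.pderiv_inr, if_neg he, mul_zero]
    · exact fun h => absurd (Finset.mem_univ _) h
  have hout' : ∀ f, (∀ i, P i ≠ f) → a f = 0 := fun f hf =>
    (mul_eq_zero.1 (hinr f)).resolve_right (mul_ne_zero (hY f) (hout f hf))
  have hinl : ∀ k : Fin n, ∑ i : Fin n, (a (P i) *
      ((Polynomial.derivative (A.F (P i))).eval₂ σ (A.lin σ (P i) t) *
        (A.yv u (P i) * u (P i, 0)))) * σ (A.l (P i) k) = 0 := by
    intro k
    have h1 := congrFun ha (Sum.inl k)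
    simp only [Finset.sum_apply, Pi.smul_apply, smul_eq_mul, Pi.zero_apply] at h1
    rw [← Finset.sum_subset (Finset.subset_univ (Finset.univ.image fun i : Fin n => P i)),
      Finset.sum_image] at h1
    · simp only [A.pderiv_inl] at h1
      rw [← neg_eq_zero, ← Finset.sum_neg_distrib]
      rw [← h1]
      exact Finset.sum_congr rfl fun i _ => by ring
    · intro i _ j _ hij
      exact hP hij
    · intro f _ hf
      rw [hout' f, zero_mul]
      intro i hi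
      exact hf (Finset.mem_image.2 ⟨i, Finset.mem_univ _, hi⟩)
  have hdet : (Matrix.of fun i k : Fin n => σ (A.l (P i) k)).det ≠ 0 := by
    have e2 : (Matrix.of fun i k : Fin n => σ (A.l (P i) k)).det =
        σ (Matrix.of fun i k : Fin n => A.l (P i) k).det := by
      rw [RingHom.map_det]
      rfl
    rw [e2]
    exact (map_ne_zero σ).2 hdetP
  have hvec := Matrix.eq_zero_of_vecMul_eq_zero hdet (v := fun i : Fin n => a (P i) *
      ((Polynomial.derivative (A.F (P i))).eval₂ σ (A.lin σ (P i) t) *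
        (A.yv u (P i) * u (P i, 0)))) (by
    funext k
    exact hinl k)
  intro e
  by_cases he : ∃ i : Fin n, P i = e
  · obtain ⟨i, rfl⟩ := he
    have h1 := congrFun hvec i
    simp only [Pi.zero_apply] at h1
    exact (mul_eq_zero.1 h1).resolve_right (mul_ne_zero (hder i) (mul_ne_zero (hY _) (hu _)))
  · push Not at he
    exact hout' e he

end points

end Pool.Agent.K7.H1.CF
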