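import Pool.Agent.K7.H1.CF.Def
import Pool.Agent.K7.H1.CF.Blk
set_option autoImplicit false

/-!
The symbols of circuits are unramified at all discrete valuations.
-/

namespace Pool.Agent.K7.H1.CF

open scoped WithZero

open Pool.Agent.TH826.MK (KQ symb Unramified unitPart symb_update_mul symb_update_zpow
  symb_eq_zero' mem_unitPart_of_oneUnit' val_le_one_of_integral)

open Pool.Agent.TH826.SX

open Pool.Agent.TH826.EF (onePart onePart_le mem_onePart_of_sum_lt)

open Pool.Agent.TH690.SF (mem_onePart_of_comp block_mem_onePart ext ext_symb ext_mem_onePart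
  symb_update_prod_self)

open Pool.Agent.Y797.HC (OU symb_zero_of_sum mem_of_rep mem_of_rep_all val_eval_le ou_eval)

section pos

variable {n k : ℕ}

/-- the position of the entry `j` of the block `i` -/
def pos (i : Fin (n + 1)) (j : Fin (k + 1)) : Fin ((n + 1) * k + n + 1) := (pr n k).symm (i, j)

theorem pr_pos (i : Fin (n + 1)) (j : Fin (k + 1)) : pr n k (pos i j) = (i, j) :=
  (pr n k).apply_symm_apply _

theorem pos_pr (p : Fin ((n + 1) * k + n + 1)) : pos (pr n k p).1 (pr n k p).2 = p :=
  (pr n k).symm_apply_apply _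

theorem pos_inj {i i' : Fin (n + 1)} {j j' : Fin (k + 1)} (h : pos i j = pos i' j') :
    i = i' ∧ j = j' := by
  have h1 := (pr n k).symm.injective h
  exact Prod.mk.injEq _ _ _ _ ▸ h1

theorem pos_injective (i : Fin (n + 1)) : Function.Injective (pos i : Fin (k + 1) → _) :=
  fun _ _ h => (pos_inj h).2

end pos

section multi

variable {L : Type*} [Field L] (v : Valuation L ℤᵐ⁰) {n k : ℕ}

/-- the span of the symbols which contain in each block `i ∈ T` an entry which is `φ_i` up to a
one-unit, and which agree with `a` outside of these blocks -/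
noncomputable def RT (φ : Fin (n + 1) → L) (T : Finset (Fin (n + 1)))
    (a : Fin ((n + 1) * k + n + 1) → Lˣ) : Submodule ℚ (KQ L ((n + 1) * k + n + 1)) :=
  Submodule.span ℚ {x | ∃ b : Fin ((n + 1) * k + n + 1) → Lˣ,
    (∀ i ∈ T, ∃ j, OU v ((b (pos i j) : L) * (φ i)⁻¹)) ∧
    (∀ p, (pr n k p).1 ∉ T → b p = a p) ∧ x = symb b}

theorem ext_block (φ : Fin (n + 1) → L) (a : Fin ((n + 1) * k + n + 1) → Lˣ) (i : Fin (n + 1))
    (h : symb (fun j : Fin (k + 1) => a (pos i j)) ∈ onePart v (k + 1) ⊔ RR v k (φ i)) :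
    symb a ∈ onePart v ((n + 1) * k + n + 1) ⊔ RT v φ {i} a := by
  have e : Function.extend (pos i) (fun j : Fin (k + 1) => a (pos i j)) a = a := by
    funext l
    by_cases hl : ∃ j, pos i j = l
    · obtain ⟨j, rfl⟩ := hl
      rw [(pos_injective i).extend_apply]
    · rw [Function.extend_apply' _ _ _ hl]
  have h1 : symb a = ext (pos_injective i) a (symb fun j : Fin (k + 1) => a (pos i j)) := by
    rw [ext_symb, e]
  rw [h1]
  obtain ⟨x, hx, y, hy, hxy⟩ := Submodule.mem_sup.1 h
  rw [← hxy, map_add]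
  refine Submodule.add_mem _ (Submodule.mem_sup_left (ext_mem_onePart v _ a hx))
    (Submodule.mem_sup_right ?_)
  clear hxy
  unfold RR at hy
  induction hy using Submodule.span_induction with
  | mem z hz =>
    obtain ⟨b, ⟨j, hj⟩, rfl⟩ := hz
    rw [ext_symb]
    refine Submodule.subset_span ⟨_, fun i' hi' => ?_, fun p hp => ?_, rfl⟩
    · rw [Finset.mem_singleton.1 hi']
      refine ⟨j, ?_⟩
      rw [(pos_injective i).extend_apply]
      exact hj
    · rw [Function.extend_apply']
      rintro ⟨j', rfl⟩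
      rw [pr_pos] at hp
      exact hp (Finset.mem_singleton_self i)
  | zero => rw [map_zero]; exact Submodule.zero_mem _
  | add a b _ _ ha hb => rw [map_add]; exact Submodule.add_mem _ ha hb
  | smul q a _ ha => rw [map_smul]; exact Submodule.smul_mem _ _ ha

theorem multi (φ : Fin (n + 1) → L) (t : Fin (n + 1) → Fin (k + 1) → Lˣ)
    (T : Finset (Fin (n + 1)))
    (h : ∀ i ∈ T, symb (t i) ∈ onePart v (k + 1) ⊔ RR v k (φ i)) :
    ∀ a : Fin ((n + 1) * k + n + 1) → Lˣ, (∀ i ∈ T, ∀ j, a (pos i j) = t i j) →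
      symb a ∈ onePart v ((n + 1) * k + n + 1) ⊔ RT v φ T a := by
  classical
  induction T using Finset.induction_on with
  | empty =>
    intro a _
    refine Submodule.mem_sup_right (Submodule.subset_span ⟨a, fun i hi => ?_, fun _ _ => rfl, rfl⟩)
    simp at hi
  | insert i T hi ih =>
    intro a ha
    have h1 : symb (fun j : Fin (k + 1) => a (pos i j)) ∈ onePart v (k + 1) ⊔ RR v k (φ i) := by
      have e : (fun j : Fin (k + 1) => a (pos i j)) = t i :=
        funext fun j => ha i (Finset.mem_insert_self _ _) j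
      rw [e]
      exact h i (Finset.mem_insert_self _ _)
    have h2 := ext_block v φ a i h1
    refine (sup_le le_sup_left ?_ : onePart v ((n + 1) * k + n + 1) ⊔ RT v φ {i} a ≤
      onePart v ((n + 1) * k + n + 1) ⊔ RT v φ (insert i T) a) h2
    unfold RT
    rw [Submodule.span_le]
    rintro x ⟨b, hb1, hb2, rfl⟩
    have hTi : ∀ i' ∈ T, i' ≠ i := fun i' hi' e => hi (e ▸ hi')
    have h3 := ih (fun i' hi' => h i' (Finset.mem_insert_of_mem hi')) b (fun i' hi' j => by
      rw [hb2 _ (by rw [pr_pos, Finset.mem_singleton]; exact hTi i' hi')]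
      exact ha i' (Finset.mem_insert_of_mem hi') j)
    refine (sup_le le_sup_left (le_sup_of_le_right ?_) :
      onePart v ((n + 1) * k + n + 1) ⊔ RT v φ T b ≤ _) h3
    unfold RT
    refine Submodule.span_mono ?_
    rintro x ⟨c, hc1, hc2, rfl⟩
    refine ⟨c, fun i' hi' => ?_, fun p hp => ?_, rfl⟩
    · rcases Finset.mem_insert.1 hi' with rfl | hi'
      · obtain ⟨j, hj⟩ := hb1 i' (Finset.mem_singleton_self _)
        refine ⟨j, ?_⟩
        rw [hc2 _ (by rw [pr_pos]; exact hi)]
        exact hj
      · exact hc1 i' hi'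
    · rw [hc2 p fun h' => hp (Finset.mem_insert_of_mem h'),
        hb2 p fun h' => hp (by rw [Finset.mem_singleton.1 h']; exact Finset.mem_insert_self _ _)]

/-- The main lemma: the symbol of `n + 1` blocks `z_i, y_{i,1}, ..., y_{i,k}` with
`z_i + y_{i,1} + ... + y_{i,k} + 1/(z_i ^ w_0 ...) = F_i(x_i)` and `∑ s_i x_i = 0`, with roots of
unity `s_i`. -/
theorem symb_mem_unitPart {M : ℕ} {F : Fin (n + 1) → Polynomial L} (hF : ∀ i, (F i).Monic)
    (hd : ∀ i, (F i).natDegree ≠ 0) (hc : ∀ i j, v ((F i).coeff j) ≤ 1) {x s : Fin (n + 1) → L}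
    (a : Fin ((n + 1) * k + n + 1) → Lˣ) (wt : Fin (n + 1) → Fin (k + 1) → ℕ)
    (hwt : ∀ i j, 1 ≤ wt i j)
    (hz : ∀ i, ∑ l, (WW (fun j => a (pos i j)) (wt i) l : L) = (F i).eval (x i)) (hM : M ≠ 0)
    (hs : ∀ i, s i ^ M = 1) (hrel : ∑ i, s i * x i = 0) :
    symb a ∈ unitPart v ((n + 1) * k + n + 1) := by
  classical
  by_cases hB : ∃ i, 1 < v (x i)
  · obtain ⟨i0, hi0⟩ := hB
    have hs0 : ∀ i, s i ≠ 0 := by
      intro i h
      have := hs i
      rw [h, zero_pow hM] at this
      exact zero_ne_one this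
    have hvs : ∀ i, v (s i) = 1 := by
      intro i
      have h1 := congrArg v (hs i)
      rw [map_pow, map_one] at h1
      exact (pow_eq_one_iff_of_nonneg zero_le hM).1 h1
    set T : Finset (Fin (n + 1)) := Finset.univ.filter fun i => 1 < v (x i) with hT
    have hi0T : i0 ∈ T := Finset.mem_filter.2 ⟨Finset.mem_univ _, hi0⟩
    have hxT : ∀ i ∈ T, x i ≠ 0 := by
      intro i hi h
      have h1 := (Finset.mem_filter.1 hi).2
      rw [h, map_zero] at h1
      exact absurd h1 (not_lt.2 zero_le_one)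
    have hxv : ∀ i ∈ T, 1 < v (x i) := fun i hi => (Finset.mem_filter.1 hi).2
    set φ : Fin (n + 1) → L := fun i => (F i).eval (x i) with hφ
    have hp : ∀ i ∈ T, OU v (φ i * (x i ^ (F i).natDegree)⁻¹) := fun i hi =>
      ou_eval v (hF i) (hc i) (hxv i hi)
    have hvφ : ∀ i ∈ T, 1 < v (φ i) := by
      intro i hi
      have h1 := (hp i hi).val
      rw [map_mul, map_inv₀, map_pow] at h1
      have h2 : v (x i) ^ (F i).natDegree ≠ 0 :=
        pow_ne_zero _ ((Valuation.ne_zero_iff v).2 (hxT i hi))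
      have h3 : v (φ i) = v (x i) ^ (F i).natDegree := by
        rw [← one_mul (v (x i) ^ (F i).natDegree), ← h1, mul_assoc, inv_mul_cancel₀ h2, mul_one]
      rw [h3]
      exact one_lt_pow₀ (hxv i hi) (hd i)
    have h1 := multi v φ (fun i j => a (pos i j)) T (fun i hi =>
      block_gt v _ (wt i) (hwt i) (φ i) (hz i) (hvφ i hi)) a fun _ _ _ => rfl
    refine (sup_le (onePart_le v) ?_ : _ ≤ unitPart v ((n + 1) * k + n + 1)) h1
    unfold RT
    rw [Submodule.span_le]
    rintro _ ⟨b, hb, -, rfl⟩
    choose! j hj using hb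
    set y : Fin (n + 1) → Lˣ := fun i => if h : x i = 0 then 1 else Units.mk0 (s i * x i)
      (mul_ne_zero (hs0 i) h) with hy
    have hyv : ∀ i ∈ T, (y i : L) = s i * x i := by
      intro i hi
      simp only [hy, dif_neg (hxT i hi), Units.val_mk0]
    set P : Finset (Fin ((n + 1) * k + n + 1)) := T.image fun i => pos i (j i) with hP
    set y' : Fin ((n + 1) * k + n + 1) → Lˣ := fun p => y (pr n k p).1 with hy'
    show symb b ∈ unitPart v _
    refine mem_of_rep_all v b y' P (fun p hpP => ?_) ?_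
    · obtain ⟨i, hi, rfl⟩ := Finset.mem_image.1 hpP
      have hx0 := hxT i hi
      have hφ0 : φ i ≠ 0 := by
        intro h
        have := hvφ i hi
        rw [h, map_zero] at this
        exact absurd this (not_lt.2 zero_le_one)
      have hyi : y' (pos i (j i)) = y i := by
        simp only [hy', pr_pos]
      have hyM : (y i : L) ^ (M * (F i).natDegree) = (x i ^ (F i).natDegree) ^ M := by
        rw [hyv i hi, mul_pow, pow_mul, hs i, one_pow, one_mul, ← pow_mul, mul_comm M]
      refine ⟨M, hM, (M * (F i).natDegree : ℕ), ?_⟩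
      have h2 := ((hj i hi).mul (hp i hi)).pow M
      have e : ((((b (pos i (j i))) ^ M * (y' (pos i (j i))) ^
          (-((M * (F i).natDegree : ℕ) : ℤ)) : Lˣ)) : L) =
          (((b (pos i (j i)) : L) * (φ i)⁻¹) * (φ i * (x i ^ (F i).natDegree)⁻¹)) ^ M := by
        rw [hyi, Units.val_mul, Units.val_pow_eq_pow_val, Units.val_zpow_eq_zpow_val, zpow_neg,
          zpow_natCast, hyM]
        have e1 : (b (pos i (j i)) : L) * (φ i)⁻¹ * (φ i * (x i ^ (F i).natDegree)⁻¹) =
            b (pos i (j i)) * (x i ^ (F i).natDegree)⁻¹ := by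
          field_simp
        rw [e1, mul_pow, inv_pow]
      rw [e]
      exact h2
    · set c : Fin ((n + 1) * k + n + 1) → Lˣ := fun p => if p ∈ P then y' p else b p with hcdef
      set p0 : Fin ((n + 1) * k + n + 1) := pos i0 (j i0) with hp0
      have hp0P : p0 ∈ P := Finset.mem_image.2 ⟨i0, hi0T, rfl⟩
      set r : L := ∑ i ∈ Finset.univ.filter (fun i => ¬ 1 < v (x i)), s i * x i with hr
      have hvr : v r ≤ 1 := by
        refine Valuation.map_sum_le _ fun i hi => ?_
        rw [map_mul, hvs, one_mul]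
        exact not_lt.1 (Finset.mem_filter.1 hi).2
      have hsumP : ∑ p ∈ P, (c p : L) = ∑ i ∈ T, s i * x i := by
        rw [hP, Finset.sum_image (fun i _ i' _ h => (pos_inj h).1)]
        refine Finset.sum_congr rfl fun i hi => ?_
        have hiP : pos i (j i) ∈ P := Finset.mem_image.2 ⟨i, hi, rfl⟩
        simp only [hcdef]
        rw [if_pos hiP]
        simp only [hy', pr_pos]
        exact hyv i hi
      have hsumT : ∑ p ∈ P, (c p : L) + r = 0 := by
        rw [hsumP, ← hrel, ← Finset.sum_filter_add_sum_filter_not Finset.univ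
          (fun i => 1 < v (x i))]
      have hb0 : (c p0 : L) = s i0 * x i0 := by
        simp only [hcdef]
        rw [if_pos hp0P]
        simp only [hy', hp0, pr_pos]
        exact hyv i0 hi0T
      have hvb : 1 < v (c p0 : L) := by
        rw [hb0, map_mul, hvs, one_mul]
        exact hi0
      have hvw : v ((c p0 : L) + r) = v (c p0 : L) :=
        Valuation.map_add_eq_of_lt_left v (hvr.trans_lt hvb)
      have hw0 : (c p0 : L) + r ≠ 0 := by
        intro h
        rw [h, map_zero] at hvw
        rw [← hvw] at hvb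
        exact absurd hvb (not_lt.2 zero_le_one)
      set w : Lˣ := Units.mk0 _ hw0 with hw
      refine mem_of_rep v c p0 w one_ne_zero 1 ?_ ?_
      · have e : (((c p0) ^ 1 * w ^ (-(1 : ℤ)) : Lˣ) : L) = (c p0 : L) * ((c p0 : L) + r)⁻¹ := by
          rw [pow_one, zpow_neg_one, Units.val_mul, Units.val_inv_eq_inv_val, hw, Units.val_mk0]
        rw [e]
        unfold OU
        have e2 : (c p0 : L) * ((c p0 : L) + r)⁻¹ - 1 = -(r * ((c p0 : L) + r)⁻¹) := by
          field_simp
          ring
        rw [e2, Valuation.map_neg, map_mul, map_inv₀, hvw]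
        calc v r * (v (c p0 : L))⁻¹ ≤ 1 * (v (c p0 : L))⁻¹ := by gcongr
          _ < 1 := by rw [one_mul]; exact inv_lt_one_of_one_lt₀ hvb
      · rw [symb_zero_of_sum ⟨p0, hp0P⟩]
        · exact Submodule.zero_mem _
        · rw [← Finset.add_sum_erase P _ hp0P, Function.update_self,
            Finset.sum_congr rfl fun k hk => by
              rw [Function.update_of_ne (Finset.ne_of_mem_erase hk)], hw, Units.val_mk0]
          rw [← Finset.add_sum_erase P _ hp0P] at hsumT
          linear_combination hsumT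
  · push Not at hB
    have hcases : ∀ i, symb (fun j : Fin (k + 1) => a (pos i j)) ∈ onePart v (k + 1) ∨
        ∀ j, v (a (pos i j) : L) = 1 := fun i =>
      block_le v _ (wt i) (hwt i) _ (hz i) (val_eval_le v (hc i) (hB i))
    by_cases hall : ∃ i, symb (fun j : Fin (k + 1) => a (pos i j)) ∈ onePart v (k + 1)
    · obtain ⟨i, hi⟩ := hall
      exact onePart_le v (mem_onePart_of_comp v a (pos_injective i) hi)
    · push Not at hall
      refine Submodule.subset_span ⟨a, fun p => ?_, rfl⟩
      have h1 := ((hcases (pr n k p).1).resolve_left (hall _)) (pr n k p).2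
      rwa [pos_pr] at h1

end multi

section ring

variable {K : Type*} [Field K] {n m k : ℕ} {A : Arr K n m k} {L : Type*} [Field L]
  (f : A.CRing →+* L)

theorem sym_mem_unramified (hint : A.Integral) {r : ℕ} {C : Fin (r + 1) → Fin m}
    (hC : A.Circuit C) :
    KQ.map ((r + 1) * k + r + 1) f (A.sym C) ∈ Unramified L ((r + 1) * k + r + 1) := by
  unfold Arr.sym
  rw [KQ.map_symb]
  unfold Unramified
  simp only [Submodule.mem_iInf]
  intro v _
  obtain ⟨s, M, hM, hs, hrel⟩ := hC.rel
  set F : MvPolynomial (Fin n ⊕ (Fin m × Fin (k + 1))) K →+* L := f.comp A.mkC with hF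
  set g : K →+* L := F.comp MvPolynomial.C with hg
  refine symb_mem_unitPart v (F := fun i => (A.F (C i)).map g)
    (x := fun i => ∑ j, g (A.l (C i) j) * F (MvPolynomial.X (Sum.inl j))) (s := fun i => g (s i))
    (M := M) (fun i => (hint _).1.map g) (fun i => ?_) (fun i j => ?_) _
    (fun i => Fin.cons 1 fun j => A.w (C i) j + 1) (fun i j => ?_) (fun i => ?_) hM
    (fun i => ?_) ?_
  · rw [Polynomial.natDegree_map]
    exact (hint _).2.1.ne'
  · rw [Polynomial.coeff_map]
    exact val_le_one_of_integral v (map_isIntegral_int g ((hint _).2.2 _))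
  · refine Fin.cases le_rfl (fun j => ?_) j
    rw [Fin.cons_succ]
    omega
  · set c : Fin (k + 1) → L := fun j => f (A.co (Sum.inr (C i, j))) with hcdef
    have hc0 : ∀ j, c j ≠ 0 := fun j => ((A.isUnit_co (C i) j).map f).ne_zero
    have hy0 : ∏ j : Fin k, c j.succ ^ (A.w (C i) j + 1) ≠ 0 :=
      Finset.prod_ne_zero_iff.2 fun j _ => pow_ne_zero _ (hc0 _)
    have hu : ∀ j : Fin (k + 1), ((Units.map (f : A.CRing →* L)
        (A.unit (C (pr r k (pos i j)).1) (pr r k (pos i j)).2) : Lˣ) : L) = c j := by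
      intro j
      rw [pr_pos]
      rfl
    have h2 := congrArg f (A.eqn_zero (C i))
    rw [A.mkC_yy, A.mkC_ss] at h2
    simp only [map_add, map_sub, map_mul, map_pow, map_one, map_zero, map_prod, map_sum] at h2
    have h3 : (∏ j : Fin k, c j.succ ^ (A.w (C i) j + 1)) * c 0 ^ 2 +
      (∏ j : Fin k, c j.succ ^ (A.w (C i) j + 1)) *
        (∑ j : Fin k, c j.succ - F (A.phi (C i))) * c 0 + 1 = 0 := h2
    have h4 : F (A.phi (C i)) = ((A.F (C i)).map g).eval
        (∑ j, g (A.l (C i) j) * F (MvPolynomial.X (Sum.inl j))) := by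
      rw [Polynomial.eval_map]
      unfold Arr.phi
      rw [Polynomial.aeval_def, Polynomial.hom_eval₂, map_sum]
      congr 1
      exact Finset.sum_congr rfl fun k _ => by rw [map_mul]; rfl
    rw [← h4, Fin.sum_univ_succ]
    have h5 : ∀ j : Fin (k + 1), ((WW (fun j => Units.map (f : A.CRing →* L)
        (A.unit (C (pr r k (pos i j)).1) (pr r k (pos i j)).2))
        (Fin.cons 1 fun j => A.w (C i) j + 1) j.succ : Lˣ) : L) = c j := hu
    have h6 : ((WW (fun j => Units.map (f : A.CRing →* L)
        (A.unit (C (pr r k (pos i j)).1) (pr r k (pos i j)).2))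
        (Fin.cons 1 fun j => A.w (C i) j + 1) 0 : Lˣ) : L) =
        (c 0 * ∏ j : Fin k, c j.succ ^ (A.w (C i) j + 1))⁻¹ := by
      rw [WW, Fin.cons_zero, Units.val_inv_eq_inv_val, Units.coe_prod]
      congr 1
      rw [Fin.prod_univ_succ]
      simp only [Units.val_pow_eq_pow_val, hu, Fin.cons_zero, pow_one, Fin.cons_succ]
    rw [h6, Finset.sum_congr rfl fun j _ => h5 j, Fin.sum_univ_succ]
    have h0 := hc0 0
    field_simp
    linear_combination h3
  · rw [← map_pow, hs, map_one]
  · have e : ∀ i, g (s i) * ∑ j, g (A.l (C i) j) * F (MvPolynomial.X (Sum.inl j)) =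
        ∑ j, g (s i * A.l (C i) j) * F (MvPolynomial.X (Sum.inl j)) := by
      intro i
      rw [Finset.mul_sum]
      exact Finset.sum_congr rfl fun j _ => by rw [map_mul, mul_assoc]
    simp only [e]
    rw [Finset.sum_comm]
    refine Finset.sum_eq_zero fun j _ => ?_
    rw [← Finset.sum_mul, ← map_sum, hrel, map_zero, zero_mul]

end ring

end Pool.Agent.K7.H1.CF
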